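import Pool.Agent.Q67.HV.Defs

/-!
Project HV: StmF from StmF1 and StmF2.
-/

set_option autoImplicit false

open MeasureTheory Set Metric Filter Topology
open scoped InnerProductSpace ENNReal ContDiff NNReal
open H772R2.NS

namespace Pool.Agent.Q67.HV

theorem vor_apply (z : M3) (i : Fin 3) : vor z i = ∑ l, ∑ k, eps i l k * z (k, l) := rfl

theorem vor_add (a b : M3) : vor (a + b) = vor a + vor b := by
  ext i
  simp only [vor_apply, PiLp.add_apply]
  rw [← Finset.sum_add_distrib]
  refine Finset.sum_congr rfl fun l _ => ?_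
  rw [← Finset.sum_add_distrib]
  exact Finset.sum_congr rfl fun k _ => by ring

theorem vor_smul (c : ℝ) (a : M3) : vor (c • a) = c • vor a := by
  ext i
  simp only [vor_apply, PiLp.smul_apply, smul_eq_mul]
  rw [Finset.mul_sum]
  refine Finset.sum_congr rfl fun l _ => ?_
  rw [Finset.mul_sum]
  exact Finset.sum_congr rfl fun k _ => by ring

/-- the vorticity as a continuous linear map -/
noncomputable def vorL : M3 →L[ℝ] E3 :=
  LinearMap.toContinuousLinearMap
    { toFun := vor, map_add' := vor_add, map_smul' := vor_smul }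

theorem vorL_apply (z : M3) : vorL z = vor z := rfl

theorem continuous_vor : Continuous vor := vorL.continuous

theorem vor0 (z : M3) : vor z 0 = z (2, 1) - z (1, 2) := by
  rw [vor_apply]
  simp [Fin.sum_univ_three, eps]
  ring

theorem vor1 (z : M3) : vor z 1 = z (0, 2) - z (2, 0) := by
  rw [vor_apply]
  simp [Fin.sum_univ_three, eps]
  ring

theorem vor2 (z : M3) : vor z 2 = z (1, 0) - z (0, 1) := by
  rw [vor_apply]
  simp [Fin.sum_univ_three, eps]
  ring

theorem norm_vor_sq_le (z : M3) : ‖vor z‖ ^ 2 ≤ 2 * ‖z‖ ^ 2 := by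
  rw [norm_sq_E3, norm_sq_M3]
  simp only [Fin.sum_univ_three, vor0, vor1, vor2]
  nlinarith [sq_nonneg (z (2, 1) + z (1, 2)), sq_nonneg (z (0, 2) + z (2, 0)),
    sq_nonneg (z (1, 0) + z (0, 1)), sq_nonneg (z (0, 0)), sq_nonneg (z (1, 1)),
    sq_nonneg (z (2, 2))]

theorem HS.mw {v : E3 → E3} {z : E3 → M3} (h : HS v z) :
    MemLp (fun x => vor (z x)) 2 (volume : Measure E3) :=
  vorL.comp_memLp' h.mz

theorem HS.wloc {v : E3 → E3} {z : E3 → M3} (h : HS v z) (x : E3) (R : ℝ) :
    IntegrableOn (fun x => vor (z x)) (ball x R) := by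
  haveI : IsFiniteMeasure ((volume : Measure E3).restrict (ball x R)) :=
    ⟨by rw [Measure.restrict_apply_univ]; exact measure_ball_lt_top⟩
  have : MemLp (fun x => vor (z x)) 2 (volume.restrict (ball x R)) := h.mw.restrict _
  exact this.integrable (by norm_num)

theorem meas_sign : Measurable Real.sign := by
  have h : Real.sign = fun r : ℝ => if r < 0 then -1 else if 0 < r then 1 else 0 := by
    funext r
    rfl
  rw [h]
  exact Measurable.ite measurableSet_Iio measurable_const
    (Measurable.ite measurableSet_Ioi measurable_const measurable_const)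

theorem t_StmF (h1 : StmF1) (h2 : StmF2) : StmF := by
  intro κ hκ hκ1
  obtain ⟨C, hC, H⟩ := h2 κ hκ hκ1
  refine ⟨C, hC, fun v z hS hR x e R hR0 he hc r hr hrR => ?_⟩
  have hW : ∀ᵐ y : E3, y ∈ ball x R → κ * ‖Real.sign ⟪e, vor (z y)⟫_ℝ • vor (z y)‖
      ≤ ⟪e, Real.sign ⟪e, vor (z y)⟫_ℝ • vor (z y)⟫_ℝ := by
    filter_upwards [hc] with y hy hyB
    have h3 := hy hyB
    rw [norm_smul, inner_smul_right]
    have e1 : Real.sign ⟪e, vor (z y)⟫_ℝ * ⟪e, vor (z y)⟫_ℝ = |⟪e, vor (z y)⟫_ℝ| := by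
      rcases lt_trichotomy ⟪e, vor (z y)⟫_ℝ 0 with h | h | h
      · rw [Real.sign_of_neg h, abs_of_neg h]; ring
      · rw [h]; simp
      · rw [Real.sign_of_pos h, abs_of_pos h]; ring
    have e2 : ‖Real.sign ⟪e, vor (z y)⟫_ℝ‖ ≤ 1 := by
      rcases Real.sign_apply_eq ⟪e, vor (z y)⟫_ℝ with h | h | h <;> rw [h] <;> norm_num
    rw [e1]
    refine le_trans ?_ h3
    have := mul_le_mul_of_nonneg_right e2 (norm_nonneg (vor (z y)))
    rw [one_mul] at this
    exact mul_le_mul_of_nonneg_left this hκ.le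
  have hn : ∀ᵐ y : E3, y ∈ ball x R → ‖Real.sign ⟪e, vor (z y)⟫_ℝ • vor (z y)‖ = ‖vor (z y)‖ := by
    filter_upwards [hc] with y hy hyB
    have h3 := hy hyB
    rw [norm_smul]
    rcases lt_trichotomy ⟪e, vor (z y)⟫_ℝ 0 with h | h | h
    · rw [Real.sign_of_neg h]; norm_num
    · rw [h, abs_zero] at h3
      have : ‖vor (z y)‖ = 0 := by
        have h4 := norm_nonneg (vor (z y))
        nlinarith
      rw [this]; simp
    · rw [Real.sign_of_pos h]; norm_num
  have hmeas : AEStronglyMeasurable (fun y => Real.sign ⟪e, vor (z y)⟫_ℝ • vor (z y))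
      (volume : Measure E3) := by
    have hm : AEStronglyMeasurable (fun y => vor (z y)) (volume : Measure E3) :=
      hS.mw.aestronglyMeasurable
    have h3 : AEStronglyMeasurable (fun y => ⟪e, vor (z y)⟫_ℝ) (volume : Measure E3) :=
      (aestronglyMeasurable_const (b := e)).inner hm
    have h4 : AEStronglyMeasurable (fun y => Real.sign ⟪e, vor (z y)⟫_ℝ) (volume : Measure E3) :=
      (meas_sign.comp_aemeasurable h3.aemeasurable).aestronglyMeasurable
    exact h4.smul hm
  have hint : IntegrableOn (fun y => Real.sign ⟪e, vor (z y)⟫_ℝ • vor (z y)) (ball x R) := by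
    refine Integrable.mono (hS.wloc x R) hmeas.restrict ?_
    refine Eventually.of_forall fun y => ?_
    rw [norm_smul]
    have e2 : ‖Real.sign ⟪e, vor (z y)⟫_ℝ‖ ≤ 1 := by
      rcases Real.sign_apply_eq ⟪e, vor (z y)⟫_ℝ with h | h | h <;> rw [h] <;> norm_num
    have := mul_le_mul_of_nonneg_right e2 (norm_nonneg (vor (z y)))
    rwa [one_mul] at this
  have h5 := H (fun y => Real.sign ⟪e, vor (z y)⟫_ℝ • vor (z y)) x e R hR0 he hint hW
    (fun ζ hζ hζc hζs => by
      have := h1 κ hκ hκ1 v z hS hR x e R hR0 he hc ζ hζ hζc hζs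
      rw [← this]
      refine integral_congr_ae (Eventually.of_forall fun y => ?_)
      simp only [PiLp.smul_apply, smul_eq_mul]
      rw [Finset.mul_sum]
      exact Finset.sum_congr rfl fun j _ => by ring) r hr hrR
  have e6 : ∫ y in ball x r, ‖Real.sign ⟪e, vor (z y)⟫_ℝ • vor (z y)‖
      = ∫ y in ball x r, ‖vor (z y)‖ := by
    refine setIntegral_congr_ae measurableSet_ball ?_
    filter_upwards [hn] with y hy hyB
    exact hy (ball_subset_ball hrR hyB)
  have e7 : ∫ y in ball x R, ‖Real.sign ⟪e, vor (z y)⟫_ℝ • vor (z y)‖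
      = ∫ y in ball x R, ‖vor (z y)‖ := by
    refine setIntegral_congr_ae measurableSet_ball ?_
    filter_upwards [hn] with y hy hyB
    exact hy hyB
  rwa [e6, e7] at h5

end Pool.Agent.Q67.HV
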