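import Pool.Agent.Q67.HV.AsmF
import Pool.Agent.H772R2.NS.First2

/-!
Project HV: Morrey bound of the vorticity if the large vorticities in a ball are in a cone.
-/

set_option autoImplicit false

open MeasureTheory Set Metric Filter Topology
open scoped InnerProductSpace ENNReal ContDiff NNReal
open H772R2.NS

namespace Pool.Agent.Q67.HV

/-- A fixed cut-off function, equal to one on the ball of radius `1 / 2`. -/
noncomputable def cb : ContDiffBump (0 : E3) := ⟨1 / 2, 1, by norm_num, by norm_num⟩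

/-- `∫ χ ⟨e, vor z⟩` in terms of `v`. -/
theorem pair_vor {v : E3 → E3} {z : E3 → M3} (h : HS v z) (e : E3) {χ : E3 → ℝ}
    (hχ : ContDiff ℝ ∞ χ) (hc : HasCompactSupport χ) :
    ∫ y, χ y * ⟪e, vor (z y)⟫_ℝ
      = -∑ i, ∑ l, ∑ k, e i * eps i l k * ∫ y, v y k * fderiv ℝ χ y (ev l) := by
  have hz : ∀ k l, Integrable fun y => z y (k, l) * χ y := by
    intro k l
    have h1 : MemLp (fun y => z y (k, l)) 2 (volume : Measure E3) :=
      (EuclideanSpace.proj (𝕜 := ℝ) (k, l) : M3 →L[ℝ] ℝ).comp_memLp' h.mz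
    have h2 : MemLp χ 2 (volume : Measure E3) := hχ.continuous.memLp_of_hasCompactSupport hc
    exact h1.integrable_mul h2
  have e1 : ∀ y, χ y * ⟪e, vor (z y)⟫_ℝ
      = ∑ i, ∑ l, ∑ k, e i * eps i l k * (z y (k, l) * χ y) := by
    intro y
    rw [inner_E3, Finset.mul_sum]
    refine Finset.sum_congr rfl fun i _ => ?_
    rw [vor_apply, Finset.mul_sum, Finset.mul_sum]
    refine Finset.sum_congr rfl fun l _ => ?_
    rw [Finset.mul_sum, Finset.mul_sum]
    exact Finset.sum_congr rfl fun k _ => by ring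
  simp_rw [e1]
  rw [integral_finsetSum _ fun i _ => integrable_finsetSum _ fun l _ =>
    integrable_finsetSum _ fun k _ => (hz k l).const_mul _, ← Finset.sum_neg_distrib]
  refine Finset.sum_congr rfl fun i _ => ?_
  rw [integral_finsetSum _ fun l _ => integrable_finsetSum _ fun k _ => (hz k l).const_mul _,
    ← Finset.sum_neg_distrib]
  refine Finset.sum_congr rfl fun l _ => ?_
  rw [integral_finsetSum _ fun k _ => (hz k l).const_mul _, ← Finset.sum_neg_distrib]
  refine Finset.sum_congr rfl fun k _ => ?_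
  rw [integral_const_mul, h.grad χ hχ hc k l]
  ring

theorem abs_eps_le (i l k : Fin 3) : |eps i l k| ≤ 1 := by
  fin_cases i <;> fin_cases l <;> fin_cases k <;> simp [eps]

theorem abs_coord_le (x : E3) (i : Fin 3) : |x i| ≤ ‖x‖ := by
  have := EuclideanSpace.norm_eq x
  have h2 : |x i| ^ 2 ≤ ‖x‖ ^ 2 := by
    rw [norm_sq_E3, sq_abs]
    exact Finset.single_le_sum (f := fun j => x j ^ 2) (fun j _ => sq_nonneg _) (Finset.mem_univ i)
  exact (pow_le_pow_iff_left₀ (abs_nonneg _) (norm_nonneg _) (by norm_num)).mp h2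

theorem cb_smooth : ContDiff ℝ ∞ cb := cb.contDiff

/-- the cut-off function on the ball with centre `x` and radius `R` -/
noncomputable def ct (x : E3) (R : ℝ) (y : E3) : ℝ := cb (R⁻¹ • (y - x))

theorem ct_smooth (x : E3) (R : ℝ) : ContDiff ℝ ∞ (ct x R) :=
  cb_smooth.comp ((contDiff_id.sub contDiff_const).const_smul R⁻¹)

theorem ct_nonneg (x : E3) (R : ℝ) (y : E3) : 0 ≤ ct x R y := cb.nonneg

theorem ct_le_one (x : E3) (R : ℝ) (y : E3) : ct x R y ≤ 1 := cb.le_one

theorem ct_zero {x : E3} {R : ℝ} (hR : 0 < R) {y : E3} (hy : R ≤ ‖y - x‖) : ct x R y = 0 := by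
  refine cb.zero_of_le_dist ?_
  show (1 : ℝ) ≤ dist (R⁻¹ • (y - x)) 0
  rw [dist_zero_right, norm_smul, norm_inv, Real.norm_of_nonneg hR.le]
  rw [le_inv_mul_iff₀ hR, mul_one]
  exact hy

theorem ct_one {x : E3} {R : ℝ} (hR : 0 < R) {y : E3} (hy : ‖y - x‖ ≤ R / 2) : ct x R y = 1 := by
  refine cb.one_of_mem_closedBall ?_
  show dist (R⁻¹ • (y - x)) 0 ≤ 1 / 2
  rw [dist_zero_right, norm_smul, norm_inv, Real.norm_of_nonneg hR.le, inv_mul_le_iff₀ hR]
  linarith

theorem ct_compact {x : E3} {R : ℝ} (hR : 0 < R) : HasCompactSupport (ct x R) := by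
  refine HasCompactSupport.of_support_subset_isCompact (isCompact_closedBall x R) ?_
  intro y hy
  by_contra hcon
  rw [mem_closedBall, dist_eq_norm, not_le] at hcon
  exact hy (ct_zero hR hcon.le)

theorem ct_deriv : ∃ C : ℝ, 0 < C ∧ ∀ (x : E3) (R : ℝ), 0 < R → ∀ y, ‖fderiv ℝ (ct x R) y‖ ≤
    C / R := by
  have h1 : HasCompactSupport (fderiv ℝ cb) := cb.hasCompactSupport.fderiv (𝕜 := ℝ)
  obtain ⟨C, hC⟩ := h1.exists_bound_of_continuous (cb_smooth.continuous_fderiv (by simp))
  refine ⟨max C 1, by positivity, fun x R hR y => ?_⟩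
  have h2 : HasFDerivAt (ct x R) ((fderiv ℝ cb (R⁻¹ • (y - x))).comp
      (R⁻¹ • ContinuousLinearMap.id ℝ E3)) y := by
    have h3 : HasFDerivAt (fun y : E3 => R⁻¹ • (y - x)) (R⁻¹ • ContinuousLinearMap.id ℝ E3) y :=
      ((hasFDerivAt_id y).sub_const x).const_smul R⁻¹
    exact ((cb_smooth.differentiable (by simp)) _).hasFDerivAt.comp y h3
  rw [h2.fderiv]
  refine (ContinuousLinearMap.opNorm_comp_le _ _).trans ?_
  rw [norm_smul, norm_inv, Real.norm_of_nonneg hR.le]
  have h4 : ‖ContinuousLinearMap.id ℝ E3‖ ≤ 1 := ContinuousLinearMap.norm_id_le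
  calc ‖fderiv ℝ cb (R⁻¹ • (y - x))‖ * (R⁻¹ * ‖ContinuousLinearMap.id ℝ E3‖)
      ≤ max C 1 * (R⁻¹ * 1) := by
        gcongr
        exact (hC _).trans (le_max_left _ _)
    _ = max C 1 / R := by rw [mul_one]; rfl

/-- bound of the pairing -/
theorem pair_le : ∃ C : ℝ, 0 < C ∧ ∀ (v : E3 → E3) (z : E3 → M3), HS v z →
    ∀ (x e : E3) (R : ℝ), 0 < R → ‖e‖ = 1 →
    ∫ y, ct x R y * ⟪e, vor (z y)⟫_ℝ ≤ C * (√(∫ y, ‖v y‖ ^ 2) * √R) := by
  obtain ⟨C₀, hC₀, h0⟩ := ct_deriv
  refine ⟨27 * (C₀ * √((volume (ball (0 : E3) 1)).toReal + 1)), by positivity, ?_⟩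
  intro v z h x e R hR he
  set Y := ∫ y, ‖v y‖ ^ 2 with hY
  have hY0 : 0 ≤ Y := integral_nonneg fun y => by positivity
  set cv := (volume (ball (0 : E3) 1)).toReal with hcv
  have hone : ∀ k l, |∫ y, v y k * fderiv ℝ (ct x R) y (ev l)| ≤
      C₀ * √(cv + 1) * (√Y * √R) := by
    intro k l
    have hvk : MemLp (fun y => v y k) 2 (volume : Measure E3) :=
      (EuclideanSpace.proj (𝕜 := ℝ) k : E3 →L[ℝ] ℝ).comp_memLp' h.mv
    have hcd : Continuous fun y => fderiv ℝ (ct x R) y (ev l) :=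
      ((ct_smooth x R).continuous_fderiv (by simp)).clm_apply continuous_const
    have hcc : HasCompactSupport fun y => fderiv ℝ (ct x R) y (ev l) :=
      ((ct_compact hR).fderiv (𝕜 := ℝ)).comp_left (g := fun L : E3 →L[ℝ] ℝ => L (ev l)) (by simp)
    have hcm : MemLp (fun y => fderiv ℝ (ct x R) y (ev l)) 2 (volume : Measure E3) :=
      hcd.memLp_of_hasCompactSupport hcc
    have h1 := integral_mul_sq_le (μ := (volume : Measure E3)) (a := fun y => v y k)
      (b := fun y => fderiv ℝ (ct x R) y (ev l)) hvk.integrable_sq hcm.integrable_sq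
      (hvk.integrable_mul hcm)
    have h2 : ∫ y, (v y k) ^ 2 ≤ Y := by
      refine integral_mono hvk.integrable_sq ?_ fun y => ?_
      · exact h.mv.integrable_norm_pow (by norm_num)
      · have := abs_coord_le (v y) k
        show (v y k) ^ 2 ≤ ‖v y‖ ^ 2
        rw [← sq_abs]
        gcongr
    have h3 : ∫ y, (fderiv ℝ (ct x R) y (ev l)) ^ 2 ≤ (C₀ / R) ^ 2 * (cv * R ^ 3) := by
      have hv : volume.real (closedBall x R) = cv * R ^ 3 := by
        have := Measure.addHaar_closedBall (volume : Measure E3) x hR.le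
        rw [Measure.real, this, ENNReal.toReal_mul, ENNReal.toReal_ofReal (by positivity)]
        simp [hcv, mul_comm]
      have hsub : ∀ y, y ∉ closedBall x R → (fderiv ℝ (ct x R) y (ev l)) ^ 2 = 0 := by
        intro y hy
        have h4 : y ∉ tsupport (ct x R) := by
          intro h5
          apply hy
          have h6 : Function.support (ct x R) ⊆ closedBall x R := by
            intro w hw
            by_contra hcon
            rw [mem_closedBall, dist_eq_norm, not_le] at hcon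
            exact hw (ct_zero hR hcon.le)
          exact closure_minimal h6 isClosed_closedBall h5
        have h5 : fderiv ℝ (ct x R) y = 0 := by
          have : y ∉ tsupport (fderiv ℝ (ct x R)) := fun h => h4 (tsupport_fderiv_subset ℝ h)
          exact image_eq_zero_of_notMem_tsupport this
        rw [h5]
        simp
      rw [← setIntegral_eq_integral_of_forall_compl_eq_zero hsub]
      have h6 : ∀ y ∈ closedBall x R, (fderiv ℝ (ct x R) y (ev l)) ^ 2 ≤ (C₀ / R) ^ 2 := by
        intro y _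
        have h7 : |fderiv ℝ (ct x R) y (ev l)| ≤ C₀ / R := by
          refine ((fderiv ℝ (ct x R) y).le_opNorm (ev l)).trans ?_
          rw [show ‖ev l‖ = 1 by simp, mul_one]
          exact h0 x R hR y
        rw [← sq_abs]
        gcongr
      have h8 := setIntegral_mono_on (μ := (volume : Measure E3)) (s := closedBall x R)
        (f := fun y => (fderiv ℝ (ct x R) y (ev l)) ^ 2) (g := fun _ => (C₀ / R) ^ 2)
        hcm.integrable_sq.integrableOn
        (integrableOn_const measure_closedBall_lt_top.ne) measurableSet_closedBall h6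
      refine h8.trans (le_of_eq ?_)
      rw [setIntegral_const, hv, smul_eq_mul, mul_comm]
    have h4 : (∫ y, v y k * fderiv ℝ (ct x R) y (ev l)) ^ 2
        ≤ (C₀ * √(cv + 1) * (√Y * √R)) ^ 2 := by
      refine h1.trans ((mul_le_mul h2 h3 (integral_nonneg fun y => sq_nonneg _) hY0).trans ?_)
      have hcv0 : 0 ≤ cv := ENNReal.toReal_nonneg
      rw [mul_pow, mul_pow, mul_pow, Real.sq_sqrt (by positivity), Real.sq_sqrt hY0,
        Real.sq_sqrt hR.le]
      have e1 : Y * ((C₀ / R) ^ 2 * (cv * R ^ 3)) = C₀ ^ 2 * cv * (Y * R) := by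
        field_simp
      rw [e1]
      gcongr
      linarith
    have h5 : |∫ y, v y k * fderiv ℝ (ct x R) y (ev l)| ^ 2
        ≤ (C₀ * √(cv + 1) * (√Y * √R)) ^ 2 := by rwa [sq_abs]
    exact (pow_le_pow_iff_left₀ (abs_nonneg _) (by positivity) (by norm_num)).mp h5
  rw [pair_vor h e (ct_smooth x R) (ct_compact hR)]
  have h7 : ∀ i l k, |e i * eps i l k * ∫ y, v y k * fderiv ℝ (ct x R) y (ev l)| ≤
      C₀ * √(cv + 1) * (√Y * √R) := by
    intro i l k
    rw [abs_mul, abs_mul]
    have h8 : |e i| * |eps i l k| ≤ 1 := by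
      have h9 : |e i| ≤ 1 := (abs_coord_le e i).trans he.le
      exact mul_le_one₀ h9 (abs_nonneg _) (abs_eps_le i l k)
    calc |e i| * |eps i l k| * |∫ y, v y k * fderiv ℝ (ct x R) y (ev l)|
        ≤ 1 * |∫ y, v y k * fderiv ℝ (ct x R) y (ev l)| :=
          mul_le_mul_of_nonneg_right h8 (abs_nonneg _)
      _ ≤ _ := by rw [one_mul]; exact hone k l
  refine (le_abs_self _).trans ?_
  rw [abs_neg]
  calc |∑ i, ∑ l, ∑ k, e i * eps i l k * ∫ y, v y k * fderiv ℝ (ct x R) y (ev l)|
      ≤ ∑ i : Fin 3, ∑ l : Fin 3, ∑ k : Fin 3, C₀ * √(cv + 1) * (√Y * √R) := by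
        refine (Finset.abs_sum_le_sum_abs _ _).trans (Finset.sum_le_sum fun i _ => ?_)
        refine (Finset.abs_sum_le_sum_abs _ _).trans (Finset.sum_le_sum fun l _ => ?_)
        exact (Finset.abs_sum_le_sum_abs _ _).trans (Finset.sum_le_sum fun k _ => h7 i l k)
    _ = 27 * (C₀ * √(cv + 1)) * (√Y * √R) := by
        simp only [Finset.sum_const, Finset.card_univ, Fintype.card_fin]
        simp only [nsmul_eq_mul]
        push_cast
        ring

end Pool.Agent.Q67.HV
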