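import Pool.Agent.Q67.HV.ConeG

/-!
Project HV: Morrey bound of the vorticity if the large vorticities in a ball are in a cone.
-/

set_option autoImplicit false

open MeasureTheory Set Metric Filter Topology
open scoped InnerProductSpace ENNReal ContDiff NNReal
open H772R2.NS

namespace Pool.Agent.Q67.HV

theorem vor_div {v : E3 → E3} {z : E3 → M3} (h : HS v z) {ζ : E3 → ℝ}
    (hζ : ContDiff ℝ ∞ ζ) (hc : HasCompactSupport ζ) :
    ∫ y, ∑ j, vor (z y) j * fderiv ℝ ζ y (ev j) = 0 := by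
  have hd : ∀ j, ContDiff ℝ ∞ fun y => fderiv ℝ ζ y (ev j) := fun j =>
    (hζ.fderiv_right (m := ∞) (by simp)).clm_apply contDiff_const
  have hdc : ∀ j, HasCompactSupport fun y => fderiv ℝ ζ y (ev j) := fun j =>
    (hc.fderiv (𝕜 := ℝ)).comp_left (g := fun L : E3 →L[ℝ] ℝ => L (ev j)) (by simp)
  have hz : ∀ k l j, Integrable fun y => z y (k, l) * fderiv ℝ ζ y (ev j) := by
    intro k l j
    have h1 : MemLp (fun y => z y (k, l)) 2 (volume : Measure E3) :=
      (EuclideanSpace.proj (𝕜 := ℝ) (k, l) : M3 →L[ℝ] ℝ).comp_memLp' h.mz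
    have h2 : MemLp (fun y => fderiv ℝ ζ y (ev j)) 2 (volume : Measure E3) :=
      (hd j).continuous.memLp_of_hasCompactSupport (hdc j)
    exact h1.integrable_mul h2
  have e1 : ∀ y, ∑ j, vor (z y) j * fderiv ℝ ζ y (ev j)
      = ∑ j, ∑ l, ∑ k, eps j l k * (z y (k, l) * fderiv ℝ ζ y (ev j)) := by
    intro y
    refine Finset.sum_congr rfl fun j _ => ?_
    rw [vor_apply, Finset.sum_mul]
    refine Finset.sum_congr rfl fun l _ => ?_
    rw [Finset.sum_mul]
    exact Finset.sum_congr rfl fun k _ => by ring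
  simp_rw [e1]
  rw [integral_finsetSum _ fun i _ => integrable_finsetSum _ fun l _ =>
    integrable_finsetSum _ fun k _ => (hz k l i).const_mul _]
  have e2 : ∀ j, ∫ y, ∑ l, ∑ k, eps j l k * (z y (k, l) * fderiv ℝ ζ y (ev j))
      = -∑ l, ∑ k, eps j l k * ∫ y, v y k * fderiv ℝ (fun y => fderiv ℝ ζ y (ev j)) y (ev l) := by
    intro j
    rw [integral_finsetSum _ fun l _ => integrable_finsetSum _ fun k _ => (hz k l j).const_mul _,
      ← Finset.sum_neg_distrib]
    refine Finset.sum_congr rfl fun l _ => ?_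
    rw [integral_finsetSum _ fun k _ => (hz k l j).const_mul _, ← Finset.sum_neg_distrib]
    refine Finset.sum_congr rfl fun k _ => ?_
    rw [integral_const_mul, h.grad _ (hd j) (hdc j) k l]
    ring
  simp_rw [e2]
  have hsymm : ∀ y a b, fderiv ℝ (fun y => fderiv ℝ ζ y (ev a)) y (ev b)
      = fderiv ℝ (fun y => fderiv ℝ ζ y (ev b)) y (ev a) := by
    intro y a b
    have h2 : ∀ c, fderiv ℝ (fun y => fderiv ℝ ζ y c) y
        = (fderiv ℝ (fderiv ℝ ζ) y).flip c := by
      intro c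
      have h3 : DifferentiableAt ℝ (fderiv ℝ ζ) y :=
        ((hζ.fderiv_right (m := ∞) (by simp)).differentiable (by simp)) y
      have := (h3.hasFDerivAt.clm_apply (hasFDerivAt_const c y)).fderiv
      rw [this]
      ext w
      simp
    rw [h2, h2]
    simp only [ContinuousLinearMap.flip_apply]
    exact (hζ.contDiffAt.isSymmSndFDerivAt (by
      simp only [minSmoothness_of_isRCLikeNormedField]
      show ((2 : ℕ∞) : WithTop ℕ∞) ≤ ((⊤ : ℕ∞) : WithTop ℕ∞)
      exact WithTop.coe_le_coe.2 le_top)).eq (ev b) (ev a)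
  set q : Fin 3 → Fin 3 → Fin 3 → ℝ := fun k j l =>
    ∫ y, v y k * fderiv ℝ (fun y => fderiv ℝ ζ y (ev j)) y (ev l) with hq
  have hqs : ∀ k j l, q k j l = q k l j := by
    intro k j l
    simp only [hq]
    refine integral_congr_ae (Eventually.of_forall fun y => ?_)
    show v y k * fderiv ℝ (fun y => fderiv ℝ ζ y (ev j)) y (ev l)
      = v y k * fderiv ℝ (fun y => fderiv ℝ ζ y (ev l)) y (ev j)
    rw [hsymm]
  show ∑ j, -∑ l, ∑ k, eps j l k * q k j l = 0
  simp only [Fin.sum_univ_three, eps]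
  simp
  have a1 := hqs 0 1 2
  have a2 := hqs 1 0 2
  have a3 := hqs 2 0 1
  linarith

theorem int_deriv_zero {ζ : E3 → ℝ} (hζ : ContDiff ℝ ∞ ζ) (hc : HasCompactSupport ζ) (j : Fin 3) :
    ∫ y, fderiv ℝ ζ y (ev j) = 0 := by
  have h1 : ∀ y : E3, HasFDerivAt (fun _ : E3 => (1 : ℝ)) (0 : E3 →L[ℝ] ℝ) y := fun y =>
    hasFDerivAt_const 1 y
  have hcd : Continuous fun y => fderiv ℝ ζ y (ev j) :=
    (hζ.continuous_fderiv (by simp)).clm_apply continuous_const
  have hcc : HasCompactSupport fun y => fderiv ℝ ζ y (ev j) :=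
    (hc.fderiv (𝕜 := ℝ)).comp_left (g := fun L : E3 →L[ℝ] ℝ => L (ev j)) (by simp)
  have h2 := integral_mul_fderiv_eq_neg_fderiv_mul_of_integrable (μ := (volume : Measure E3))
    (f := fun _ : E3 => (1 : ℝ)) (g := ζ) (v := ev j)
    (by simp) (by simpa using hcd.integrable_of_hasCompactSupport hcc)
    (by simpa using hζ.continuous.integrable_of_hasCompactSupport hc)
    (fun _ _ => differentiableAt_const _) (fun x _ => (hζ.differentiable (by simp)) x)
  simpa using h2

/-- Morrey bound of the vorticity from a single cone for the large vorticities. -/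
theorem coneG (hF2 : StmF2) {κ : ℝ} (hκ : 0 < κ) (hκ1 : κ ≤ 1) : ∃ C : ℝ, 0 < C ∧
    ∀ (v : E3 → E3) (z : E3 → M3), HS v z → ∀ (x e : E3) (R M : ℝ), 0 < R → ‖e‖ = 1 → 0 ≤ M →
      (∀ᵐ y : E3, y ∈ ball x R → M < ‖vor (z y)‖ → κ * ‖vor (z y)‖ ≤ ⟪e, vor (z y)⟫_ℝ) →
      ∀ r, 0 < r → r ≤ R / 2 →
        ∫ y in ball x r, ‖vor (z y)‖ ≤ C * (√(∫ y, ‖v y‖ ^ 2) / √R + M * R ^ 2) * r := by
  obtain ⟨C₁, hC₁, h1⟩ := hF2 (κ / 3) (by positivity) (by linarith)
  obtain ⟨C₂, hC₂, h2⟩ := pair_le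
  set cv := (volume (ball (0 : E3) 1)).toReal with hcv
  have hcv0 : 0 ≤ cv := ENNReal.toReal_nonneg
  refine ⟨6 * C₁ / κ * (C₂ + 2 * cv) + 2 * cv, by positivity, ?_⟩
  intro v z h x e R M hR he hM hc r hr hrR
  set Y := ∫ y, ‖v y‖ ^ 2 with hY
  set W : E3 → E3 := fun y => vor (z y) + (2 * M) • e with hW
  have hfin : ∀ ρ : ℝ, volume (ball x ρ) ≠ ⊤ := fun ρ => measure_ball_lt_top.ne
  have hvol : ∀ ρ : ℝ, 0 ≤ ρ → volume.real (ball x ρ) = cv * ρ ^ 3 := by
    intro ρ hρ
    have := Measure.addHaar_ball (volume : Measure E3) x hρ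
    rw [Measure.real, this, ENNReal.toReal_mul, ENNReal.toReal_ofReal (by positivity)]
    simp [hcv, mul_comm]
  have hWi : ∀ ρ : ℝ, IntegrableOn W (ball x ρ) := fun ρ =>
    (h.wloc x ρ).add (integrableOn_const (hfin ρ))
  have hcone : ∀ᵐ y : E3, y ∈ ball x R → κ / 3 * ‖W y‖ ≤ ⟪e, W y⟫_ℝ := by
    filter_upwards [hc] with y hy hyB
    have e1 : ⟪e, W y⟫_ℝ = ⟪e, vor (z y)⟫_ℝ + 2 * M := by
      simp only [hW]
      rw [inner_add_right, inner_smul_right, real_inner_self_eq_norm_sq, he]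
      ring
    have e2 : ‖W y‖ ≤ ‖vor (z y)‖ + 2 * M := by
      refine (norm_add_le _ _).trans ?_
      rw [norm_smul, he, mul_one, Real.norm_of_nonneg (by positivity)]
    rw [e1]
    have h3 : κ / 3 * ‖W y‖ ≤ κ / 3 * (‖vor (z y)‖ + 2 * M) :=
      mul_le_mul_of_nonneg_left e2 (by positivity)
    refine h3.trans ?_
    have hn := norm_nonneg (vor (z y))
    by_cases hlt : M < ‖vor (z y)‖
    · have h4 := hy hyB hlt
      nlinarith
    · push Not at hlt
      have h4 := (abs_le.1 (abs_real_inner_le_norm e (vor (z y)))).1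
      rw [he, one_mul] at h4
      nlinarith
  have hdiv : ∀ ζ : E3 → ℝ, ContDiff ℝ ∞ ζ → HasCompactSupport ζ → tsupport ζ ⊆ ball x (R / 2) →
      ∫ y, ∑ j, W y j * fderiv ℝ ζ y (ev j) = 0 := by
    intro ζ hζ hζc _
    have hcd : ∀ j, Continuous fun y => fderiv ℝ ζ y (ev j) := fun j =>
      (hζ.continuous_fderiv (by simp)).clm_apply continuous_const
    have hcc : ∀ j, HasCompactSupport fun y => fderiv ℝ ζ y (ev j) := fun j =>
      (hζc.fderiv (𝕜 := ℝ)).comp_left (g := fun L : E3 →L[ℝ] ℝ => L (ev j)) (by simp)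
    have i1 : ∀ j, Integrable fun y => vor (z y) j * fderiv ℝ ζ y (ev j) := by
      intro j
      have h3 : MemLp (fun y => vor (z y) j) 2 (volume : Measure E3) :=
        (EuclideanSpace.proj (𝕜 := ℝ) j : E3 →L[ℝ] ℝ).comp_memLp' h.mw
      have h4 : MemLp (fun y => fderiv ℝ ζ y (ev j)) 2 (volume : Measure E3) :=
        (hcd j).memLp_of_hasCompactSupport (hcc j)
      exact h3.integrable_mul h4
    have i2 : ∀ j, Integrable fun y => 2 * M * e j * fderiv ℝ ζ y (ev j) := fun j =>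
      ((hcd j).integrable_of_hasCompactSupport (hcc j)).const_mul _
    have e1 : ∀ y, ∑ j, W y j * fderiv ℝ ζ y (ev j)
        = (∑ j, vor (z y) j * fderiv ℝ ζ y (ev j)) + ∑ j, 2 * M * e j * fderiv ℝ ζ y (ev j) := by
      intro y
      rw [← Finset.sum_add_distrib]
      refine Finset.sum_congr rfl fun j _ => ?_
      simp only [hW, PiLp.add_apply, PiLp.smul_apply, smul_eq_mul]
      ring
    simp_rw [e1]
    rw [integral_add (integrable_finsetSum _ fun j _ => i1 j)
      (integrable_finsetSum _ fun j _ => i2 j), vor_div h hζ hζc,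
      integral_finsetSum _ fun j _ => i2 j, zero_add]
    refine Finset.sum_eq_zero fun j _ => ?_
    rw [integral_const_mul, int_deriv_zero hζ hζc j, mul_zero]
  have hcone2 : ∀ᵐ y : E3, y ∈ ball x (R / 2) → κ / 3 * ‖W y‖ ≤ ⟪e, W y⟫_ℝ := by
    filter_upwards [hcone] with y hy hyB
    exact hy (ball_subset_ball (by linarith) hyB)
  have h3 := h1 W x e (R / 2) (by positivity) he (hWi _) hcone2 hdiv r hr hrR
  -- the bound at the large scale
  have hWe : ∀ ρ : ℝ, IntegrableOn (fun y => ⟪e, W y⟫_ℝ) (ball x ρ) := fun ρ =>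
    (hWi ρ).const_inner e
  have h4 : ∫ y in ball x (R / 2), ‖W y‖ ≤ 3 / κ * ∫ y in ball x (R / 2), ⟪e, W y⟫_ℝ := by
    rw [← integral_const_mul]
    refine setIntegral_mono_ae_restrict (hWi _).norm ((hWe _).const_mul _) ?_
    rw [EventuallyLE, ae_restrict_iff' measurableSet_ball]
    filter_upwards [hcone2] with y hy hyB
    have := hy hyB
    rw [div_mul_eq_mul_div, le_div_iff₀ hκ]
    linarith
  have hci : Integrable fun y => ct x R y * ⟪e, W y⟫_ℝ := by
    have h5 : Integrable fun y => ct x R y * ⟪e, vor (z y)⟫_ℝ := by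
      have h6 : MemLp (fun y => ⟪e, vor (z y)⟫_ℝ) 2 (volume : Measure E3) := h.mw.const_inner e
      have h6' : MemLp (ct x R) 2 (volume : Measure E3) :=
        (ct_smooth x R).continuous.memLp_of_hasCompactSupport (ct_compact hR)
      exact h6'.integrable_mul h6
    have h7 : Integrable fun y => ct x R y * (2 * M) :=
      ((ct_smooth x R).continuous.integrable_of_hasCompactSupport (ct_compact hR)).mul_const _
    refine (h5.add h7).congr (Eventually.of_forall fun y => ?_)
    show ct x R y * ⟪e, vor (z y)⟫_ℝ + ct x R y * (2 * M) = ct x R y * ⟪e, W y⟫_ℝ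
    simp only [hW]
    rw [inner_add_right, inner_smul_right, real_inner_self_eq_norm_sq, he]
    ring
  have h5 : ∫ y in ball x (R / 2), ⟪e, W y⟫_ℝ ≤ ∫ y, ct x R y * ⟪e, W y⟫_ℝ := by
    rw [← integral_indicator measurableSet_ball]
    refine integral_mono_ae ((hWe _).integrable_indicator measurableSet_ball) hci ?_
    filter_upwards [hcone] with y hy
    by_cases h6 : y ∈ ball x (R / 2)
    · rw [indicator_of_mem h6, ct_one hR, one_mul]
      rw [mem_ball, dist_eq_norm] at h6
      exact h6.le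
    · rw [indicator_of_notMem h6]
      by_cases h7 : y ∈ ball x R
      · have h8 := hy h7
        have h9 : 0 ≤ ⟪e, W y⟫_ℝ := le_trans (by positivity) h8
        exact mul_nonneg (ct_nonneg x R y) h9
      · rw [mem_ball, dist_eq_norm, not_lt] at h7
        rw [ct_zero hR h7, zero_mul]
  have h6 : ∫ y, ct x R y * ⟪e, W y⟫_ℝ ≤ C₂ * (√Y * √R) + 2 * M * (cv * R ^ 3) := by
    have e1 : ∀ y, ct x R y * ⟪e, W y⟫_ℝ = ct x R y * ⟪e, vor (z y)⟫_ℝ + ct x R y * (2 * M) := by
      intro y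
      simp only [hW]
      rw [inner_add_right, inner_smul_right, real_inner_self_eq_norm_sq, he]
      ring
    have i1 : Integrable fun y => ct x R y * ⟪e, vor (z y)⟫_ℝ := by
      have h6 : MemLp (fun y => ⟪e, vor (z y)⟫_ℝ) 2 (volume : Measure E3) := h.mw.const_inner e
      have h6' : MemLp (ct x R) 2 (volume : Measure E3) :=
        (ct_smooth x R).continuous.memLp_of_hasCompactSupport (ct_compact hR)
      exact h6'.integrable_mul h6
    have i2 : Integrable fun y => ct x R y * (2 * M) :=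
      ((ct_smooth x R).continuous.integrable_of_hasCompactSupport (ct_compact hR)).mul_const _
    simp_rw [e1]
    rw [integral_add i1 i2]
    refine add_le_add (h2 v z h x e R hR he) ?_
    have h7 : ∫ y, ct x R y * (2 * M) ≤ ∫ y in ball x R, 2 * M := by
      rw [← integral_indicator measurableSet_ball]
      refine integral_mono i2 ((integrableOn_const (hfin R)).integrable_indicator
        measurableSet_ball) fun y => ?_
      by_cases h8 : y ∈ ball x R
      · simp only [indicator_of_mem h8]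
        have := mul_le_mul_of_nonneg_right (ct_le_one x R y) (by positivity : 0 ≤ 2 * M)
        rwa [one_mul] at this
      · simp only [indicator_of_notMem h8]
        rw [mem_ball, dist_eq_norm, not_lt] at h8
        rw [ct_zero hR h8, zero_mul]
    refine h7.trans (le_of_eq ?_)
    rw [setIntegral_const, hvol R hR.le, smul_eq_mul, mul_comm]
  have h7 : ∫ y in ball x r, ‖vor (z y)‖ ≤ (∫ y in ball x r, ‖W y‖) + 2 * M * (cv * r ^ 3) := by
    have e1 : 2 * M * (cv * r ^ 3) = ∫ y in ball x r, 2 * M := by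
      rw [setIntegral_const, hvol r hr.le, smul_eq_mul, mul_comm]
    rw [e1, ← integral_add (hWi r).norm (integrableOn_const (hfin r))]
    refine integral_mono (h.wloc x r).norm ((hWi r).norm.add (integrableOn_const (hfin r)))
      fun y => ?_
    show ‖vor (z y)‖ ≤ ‖W y‖ + 2 * M
    have e2 : vor (z y) = W y - (2 * M) • e := by simp [hW]
    have e3 : ‖W y - (2 * M) • e‖ ≤ ‖W y‖ + ‖(2 * M) • e‖ := norm_sub_le _ _
    rw [norm_smul, he, mul_one, Real.norm_of_nonneg (by positivity : 0 ≤ 2 * M), ← e2] at e3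
    exact e3
  have h8 : ∫ y in ball x (R / 2), ‖W y‖ ≤ 3 / κ * (C₂ * (√Y * √R) + 2 * M * (cv * R ^ 3)) :=
    h4.trans (mul_le_mul_of_nonneg_left (h5.trans h6) (by positivity))
  have h9 : ∫ y in ball x r, ‖W y‖
      ≤ C₁ * (r / (R / 2)) * (3 / κ * (C₂ * (√Y * √R) + 2 * M * (cv * R ^ 3))) :=
    h3.trans (mul_le_mul_of_nonneg_left h8 (by positivity))
  have hsR : √R * √R = R := Real.mul_self_sqrt hR.le
  have hsR0 : 0 < √R := Real.sqrt_pos.2 hR
  have e3 : C₁ * (r / (R / 2)) * (3 / κ * (C₂ * (√Y * √R) + 2 * M * (cv * R ^ 3)))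
      = 6 * C₁ / κ * (C₂ * (√Y / √R) + 2 * cv * (M * R ^ 2)) * r := by
    have : √Y * √R = √Y / √R * R := by
      rw [div_mul_eq_mul_div, eq_div_iff hsR0.ne', mul_assoc, hsR]
    rw [this]
    field_simp
    ring
  have h10 : r ^ 3 ≤ R ^ 2 * r := by
    have : r ^ 2 ≤ R ^ 2 := by
      have : r ≤ R := by linarith
      gcongr
    calc r ^ 3 = r ^ 2 * r := by ring
      _ ≤ R ^ 2 * r := mul_le_mul_of_nonneg_right this hr.le
  have h11 : 2 * M * (cv * r ^ 3) ≤ 2 * cv * (M * R ^ 2) * r := by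
    have := mul_le_mul_of_nonneg_left h10 (by positivity : 0 ≤ 2 * M * cv)
    nlinarith
  have ha : 0 ≤ √Y / √R := by positivity
  have hb : 0 ≤ M * R ^ 2 := by positivity
  refine h7.trans ((add_le_add (h9.trans (le_of_eq e3)) h11).trans ?_)
  have hk : 0 ≤ 6 * C₁ / κ := by positivity
  generalize √Y / √R = p at *
  generalize M * R ^ 2 = q at *
  generalize 6 * C₁ / κ = k at *
  have e4 : (k * (C₂ + 2 * cv) + 2 * cv) * (p + q) * r - (k * (C₂ * p + 2 * cv * q) * r
      + 2 * cv * q * r) = (k * (2 * cv * p) + k * (C₂ * q) + 2 * cv * p) * r := by ring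
  have e5 : 0 ≤ (k * (2 * cv * p) + k * (C₂ * q) + 2 * cv * p) * r := by positivity
  linarith

end Pool.Agent.Q67.HV
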