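import Pool.Agent.H772R2.NS.Build

/-!
Project HV (helper67), for MP_1c98a8_an: weak solutions of the Navier-Stokes equations in `ℝ³` with
Hoelder continuous vorticity direction (more generally with the double cone condition on the balls
of a fixed radius) are in `L⁴(0,T; L⁴)`. Definitions and statements of the lemma jobs.

`E3 = EuclideanSpace ℝ (Fin 3)`, `M3 = EuclideanSpace ℝ (Fin 3 × Fin 3)`; the entry `(k, l)` of the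
gradient is `∂_l v_k`. `L2V univ`, `L2M univ` are `Lp` spaces for `volume.restrict univ`.
-/

set_option autoImplicit false

open MeasureTheory Set Metric Filter Topology
open scoped InnerProductSpace ENNReal ContDiff NNReal
open H772R2.NS

namespace Pool.Agent.Q67.HV

/-- A field of `H¹_σ(ℝ³)` and its gradient. -/
structure HS (v : E3 → E3) (z : E3 → M3) : Prop where
  mv : MemLp v 2 (volume : Measure E3)
  mz : MemLp z 2 (volume : Measure E3)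
  grad : ∀ ψ : E3 → ℝ, ContDiff ℝ ∞ ψ → HasCompactSupport ψ → ∀ i j,
    ∫ x, v x i * fderiv ℝ ψ x (ev j) = -∫ x, z x (i, j) * ψ x
  div : ∀ᵐ x : E3, ∑ i, z x (i, i) = 0
  trans : ∀ h : E3, ∫ x, ‖v (x + h) - v x‖ ^ 2 ≤ ‖h‖ ^ 2 * ∫ x, ‖z x‖ ^ 2

/-- The Levi-Civita symbol. -/
def eps : Fin 3 → Fin 3 → Fin 3 → ℝ :=
  ![![![0, 0, 0], ![0, 0, 1], ![0, -1, 0]], ![![0, 0, -1], ![0, 0, 0], ![1, 0, 0]],
    ![![0, 1, 0], ![-1, 0, 0], ![0, 0, 0]]]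

/-- The vorticity from the gradient matrix. -/
noncomputable def vor (z : M3) : E3 := WithLp.toLp 2 fun i => ∑ l, ∑ k, eps i l k * z (k, l)

/-- The bump function with radii `1/2` and `1`. -/
noncomputable def bmp : ContDiffBump (0 : E3) := ⟨1 / 2, 1, by norm_num, by norm_num⟩

/-- The mollifier of radius `δ`. -/
noncomputable def eta (δ : ℝ) (x : E3) : ℝ := δ⁻¹ ^ 3 * bmp.normed volume (δ⁻¹ • x)

/-- The mollified vorticity. -/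
noncomputable def wd (δ : ℝ) (z : E3 → M3) (x : E3) : E3 :=
  WithLp.toLp 2 fun i => ∫ y, eta δ (x - y) * vor (z y) i

/-- The divergence free test field `curl_y (eta δ (x - y) e_i)`. -/
noncomputable def tf (δ : ℝ) (i : Fin 3) (x y : E3) : E3 :=
  WithLp.toLp 2 fun k => ∑ l, eps k l i * fderiv ℝ (fun y' => eta δ (x - y')) y (ev l)

/-- The mollified vorticity from the velocity. -/
noncomputable def wu (δ : ℝ) (v : E3 → E3) (x : E3) : E3 :=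
  WithLp.toLp 2 fun i => ∫ y, ∑ k, v y k * tf δ i x y k

/-- The right hand side of the equation of the mollified vorticity, as in the weak formulation. -/
noncomputable def NN (ν δ : ℝ) (v : E3 → E3) (z : E3 → M3) (i : Fin 3) (x : E3) : ℝ :=
  (∫ y, ∑ k, ∑ j, v y k * v y j * jac (tf δ i x) y (k, j))
    - ν * ∫ y, ∑ k, ∑ j, z y (k, j) * jac (tf δ i x) y (k, j)

/-- Laplacian of a function. -/
noncomputable def lapl (f : E3 → ℝ) (x : E3) : ℝ :=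
  ∑ j, fderiv ℝ (fun y => fderiv ℝ f y (ev j)) x (ev j)

/-- The square of the length of the gradient of a field. -/
noncomputable def gs (W : E3 → E3) (x : E3) : ℝ :=
  ∑ i, ∑ j, (fderiv ℝ (fun y => W y i) x (ev j)) ^ 2

/-- The convex function `2 s - log s`, `s = √(1 + |a|²)`. -/
noncomputable def Phi (a : E3) : ℝ := 2 * √(1 + ‖a‖ ^ 2) - Real.log (1 + ‖a‖ ^ 2) / 2

/-- The gradient of `Phi`. -/
noncomputable def gPhi (a : E3) (i : Fin 3) : ℝ :=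
  (2 / √(1 + ‖a‖ ^ 2) - 1 / (1 + ‖a‖ ^ 2)) * a i

/-- Cut-off functions. -/
structure Cut (χ : E3 → ℝ) : Prop where
  smooth : ContDiff ℝ ∞ χ
  compact : HasCompactSupport χ
  nonneg : ∀ x, 0 ≤ χ x
  le_one : ∀ x, χ x ≤ 1

/-- Mild regularity of the vorticity: along a sequence of mollifications the integrals of
`|∇w|² / (1 + |w|²)` over each ball are bounded. -/
def Reg (z : E3 → M3) : Prop := ∀ N : ℕ, ∃ M : ℝ, ∃ᶠ n : ℕ in atTop,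
  ∫⁻ x in ball (0 : E3) N,
    ENNReal.ofReal (gs (wd (1 / (n + 1)) z) x / (1 + ‖wd (1 / (n + 1)) z x‖ ^ 2)) ≤ ENNReal.ofReal M

/-- The maximal function. -/
noncomputable def MM (f : E3 → ℝ≥0∞) (x : E3) : ℝ≥0∞ :=
  ⨆ r : ℝ, ⨆ _ : 0 < r, (volume (ball x r))⁻¹ * ∫⁻ y in ball x r, f y

/-! ### The jobs -/

/-- HV-H0. -/
def StmH0 : Prop := ∀ p : L2V univ × L2M univ, p ∈ graphW univ → HS p.1 p.2

/-- HV-E0. The mollifier. -/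
def StmE0 : Prop :=
  (∀ δ : ℝ, 0 < δ → ContDiff ℝ ∞ (eta δ) ∧ (∀ x, 0 ≤ eta δ x) ∧ (∀ x, δ ≤ ‖x‖ → eta δ x = 0) ∧
    (∀ x, eta δ (-x) = eta δ x) ∧ ∫ x, eta δ x = 1) ∧
  (∃ C : ℝ, 0 < C ∧ ∀ δ : ℝ, 0 < δ → ∀ x, eta δ x ≤ C / δ ^ 3 ∧
    (∀ j, |fderiv ℝ (eta δ) x (ev j)| ≤ C / δ ^ 4) ∧
    ∀ j k, |fderiv ℝ (fun y => fderiv ℝ (eta δ) y (ev j)) x (ev k)| ≤ C / δ ^ 5) ∧
  ∀ f : E3 → ℝ, MemLp f 2 (volume : Measure E3) →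
    (∀ δ : ℝ, 0 < δ → ContDiff ℝ ∞ (fun x => ∫ y, eta δ (x - y) * f y) ∧
      MemLp (fun x => ∫ y, eta δ (x - y) * f y) 2 (volume : Measure E3) ∧
      ∫ x, (∫ y, eta δ (x - y) * f y) ^ 2 ≤ ∫ x, f x ^ 2) ∧
    Tendsto (fun n : ℕ => ∫ x, ((∫ y, eta (1 / (n + 1)) (x - y) * f y) - f x) ^ 2) atTop (𝓝 0)

/-- HV-W. The test fields and the mollified vorticity. -/
def StmW : Prop :=
  (∀ (δ : ℝ) (i : Fin 3) (x : E3), 0 < δ → IsTest univ (tf δ i x)) ∧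
  ∀ (v : E3 → E3) (z : E3 → M3), HS v z → ∀ δ : ℝ, 0 < δ →
    (∀ x, wu δ v x = wd δ z x) ∧ (∀ i, ContDiff ℝ ∞ (fun x => wd δ z x i)) ∧
    (∀ x, ∑ i, fderiv ℝ (fun y => wd δ z y i) x (ev i) = 0) ∧
    MemLp (wd δ z) 2 (volume : Measure E3) ∧ ∫ x, ‖wd δ z x‖ ^ 2 ≤ 4 * ∫ x, ‖z x‖ ^ 2

/-- HV-N. The double commutator. -/
def StmN : Prop := ∃ C : ℝ, 0 < C ∧ ∀ (ν δ : ℝ) (v : E3 → E3) (z : E3 → M3), 0 < δ → HS v z →
  ∃ ρ : Fin 3 → E3 → ℝ, (∀ i, Integrable (ρ i)) ∧ (∀ i, ∫ x, |ρ i x| ≤ C * ∫ x, ‖z x‖ ^ 2) ∧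
    ∀ i x, NN ν δ v z i x = ν * lapl (fun y => wd δ z y i) x
      - (∑ j, v x j * fderiv ℝ (fun y => wd δ z y i) x (ev j)) + ρ i x

/-- HV-P. Integration by parts in space. -/
def StmP : Prop := ∀ (W : E3 → E3) (χ : E3 → ℝ), (∀ i, ContDiff ℝ ∞ (fun x => W x i)) → Cut χ →
  (∫ x, χ x * ∑ i, gPhi (W x) i * lapl (fun y => W y i) x)
      + (∫ x, χ x * (gs W x / (1 + ‖W x‖ ^ 2))) ≤ ∫ x, Phi (W x) * |lapl χ x| ∧
  ∀ (v : E3 → E3) (z : E3 → M3), HS v z →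
    ∫ x, χ x * ∑ i, gPhi (W x) i * ∑ j, v x j * fderiv ℝ (fun y => W y i) x (ev j)
      = -∫ x, Phi (W x) * ∑ j, v x j * fderiv ℝ χ x (ev j)

/-- HV-T. The evolution of the integral of `Phi` of the mollified vorticity. -/
def StmT : Prop := ∀ (ν T : ℝ) (u : ℝ → L2V univ) (G : ℝ → L2M univ), 0 ≤ ν → 0 < T →
  IsWeakSolution univ ν T u G 0 → ∀ (δ : ℝ) (χ : E3 → ℝ), 0 < δ → Cut χ →
    IntegrableOn (fun τ => ∫ x, χ x * ∑ i, gPhi (wu δ (u τ) x) i * NN ν δ (u τ) (G τ) i x)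
      (Ioo 0 T) ∧
    ∀ s t, 0 ≤ s → s ≤ t → t ≤ T →
      (∫ x, χ x * Phi (wu δ (u t) x)) - (∫ x, χ x * Phi (wu δ (u s) x))
        ≤ ∫ τ in s..t, ∫ x, χ x * ∑ i, gPhi (wu δ (u τ) x) i * NN ν δ (u τ) (G τ) i x

/-- HV-B. The uniform bounds. -/
def StmB : Prop := ∀ (ν T R : ℝ) (u : ℝ → L2V univ) (G : ℝ → L2M univ), 0 < ν → 0 < T → 0 < R →
  IsWeakSolution univ ν T u G 0 → ∀ (s : ℝ) (z : L2M univ), 0 ≤ s → s < T →
    (u s, z) ∈ graphW univ → ∃ L : ℝ, ∀ (δ : ℝ) (x₀ : E3), 0 < δ → δ ≤ 1 →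
      (∀ t ∈ Icc s T, ∫ x in ball x₀ R, ‖wu δ (u t) x‖ ≤ L) ∧
      ∫⁻ τ in Ioo s T, ∫⁻ x in ball x₀ R,
        ENNReal.ofReal (gs (wd δ (G τ)) x / (1 + ‖wd δ (G τ) x‖ ^ 2)) ≤ ENNReal.ofReal L

/-- HV-L. The limit at almost every time. -/
def StmL : Prop := ∀ (ν T R : ℝ) (u : ℝ → L2V univ) (G : ℝ → L2M univ), 0 < ν → 0 < T → 0 < R →
  IsWeakSolution univ ν T u G 0 → ∀ (s : ℝ) (z : L2M univ), 0 ≤ s → s < T →
    (u s, z) ∈ graphW univ → ∃ L : ℝ, ∀ᵐ t ∂(volume.restrict (Ioo s T)),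
      HS (u t) (G t) ∧ Reg (G t) ∧ ∀ x₀ : E3, ∫ x in ball x₀ R, ‖vor (G t x)‖ ≤ L

/-- HV-F. The flux lemma for the double cone condition. -/
def StmF : Prop := ∀ κ : ℝ, 0 < κ → κ ≤ 1 → ∃ C : ℝ, 0 < C ∧
  ∀ (v : E3 → E3) (z : E3 → M3), HS v z → Reg z → ∀ (x e : E3) (R : ℝ), 0 < R → ‖e‖ = 1 →
    (∀ᵐ y : E3, y ∈ ball x R → κ * ‖vor (z y)‖ ≤ |⟪e, vor (z y)⟫_ℝ|) →
    ∀ r, 0 < r → r ≤ R →
      ∫ y in ball x r, ‖vor (z y)‖ ≤ C * (r / R) * ∫ y in ball x R, ‖vor (z y)‖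

/-- HV-M. The maximal inequality in `L²`. -/
def StmM : Prop := ∃ C : ℝ≥0, ∀ f : E3 → ℝ≥0∞, Measurable f →
  ∫⁻ x, MM f x ^ 2 ≤ C * ∫⁻ x, f x ^ 2

/-- HV-Q. The `L⁴` bound from the Morrey bound of the vorticity. -/
def StmQ : Prop := ∃ C : ℝ, 0 < C ∧ ∀ (v : E3 → E3) (z : E3 → M3), HS v z → ∀ K R : ℝ, 0 ≤ K →
  0 < R → (∀ (x : E3) (r : ℝ), 0 < r → r ≤ R → ∫ y in ball x r, ‖vor (z y)‖ ≤ K * r) →
    eLpNorm v 4 (volume : Measure E3) ^ 4 ≤ ENNReal.ofReal (C * (K ^ 2 * (∫ x, ‖z x‖ ^ 2)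
      + (K ^ 2 / R ^ 2 + (∫ x, ‖v x‖ ^ 2) / R ^ 3) * ∫ x, ‖v x‖ ^ 2))

/-- HV-F1. Up to its sign the vorticity is without divergence. -/
def StmF1 : Prop := ∀ κ : ℝ, 0 < κ → κ ≤ 1 →
  ∀ (v : E3 → E3) (z : E3 → M3), HS v z → Reg z → ∀ (x e : E3) (R : ℝ), 0 < R → ‖e‖ = 1 →
    (∀ᵐ y : E3, y ∈ ball x R → κ * ‖vor (z y)‖ ≤ |⟪e, vor (z y)⟫_ℝ|) →
    ∀ ζ : E3 → ℝ, ContDiff ℝ ∞ ζ → HasCompactSupport ζ → tsupport ζ ⊆ ball x R →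
      ∫ y, Real.sign ⟪e, vor (z y)⟫_ℝ * ∑ j, vor (z y) j * fderiv ℝ ζ y (ev j) = 0

/-- HV-F2. The flux lemma for a single cone and weakly divergence free fields. -/
def StmF2 : Prop := ∀ κ : ℝ, 0 < κ → κ ≤ 1 → ∃ C : ℝ, 0 < C ∧
  ∀ (W : E3 → E3) (x e : E3) (R : ℝ), 0 < R → ‖e‖ = 1 → IntegrableOn W (ball x R) →
    (∀ᵐ y : E3, y ∈ ball x R → κ * ‖W y‖ ≤ ⟪e, W y⟫_ℝ) →
    (∀ ζ : E3 → ℝ, ContDiff ℝ ∞ ζ → HasCompactSupport ζ → tsupport ζ ⊆ ball x R →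
      ∫ y, ∑ j, W y j * fderiv ℝ ζ y (ev j) = 0) →
    ∀ r, 0 < r → r ≤ R → ∫ y in ball x r, ‖W y‖ ≤ C * (r / R) * ∫ y in ball x R, ‖W y‖

end Pool.Agent.Q67.HV
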