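import Pool.Agent.Q224.HV.H0
import Pool.Agent.Q67.HV.AsmF

/-!
Project HV: extension by zero of the fields of `H¹_{0,σ}(Ω)`.
-/

set_option autoImplicit false

open MeasureTheory Set Metric Filter Topology
open scoped InnerProductSpace ENNReal ContDiff NNReal
open H772R2.NS

namespace Pool.Agent.Q67.HV

open Pool.Agent.Q224.HV

theorem HS.congr {v v' : E3 → E3} {z z' : E3 → M3} (h : HS v z) (h1 : v =ᵐ[volume] v')
    (h2 : z =ᵐ[volume] z') : HS v' z' where
  mv := h.mv.ae_eq h1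
  mz := h.mz.ae_eq h2
  grad := fun ψ a b i j => by
    have e1 : ∫ x, v' x i * fderiv ℝ ψ x (ev j) = ∫ x, v x i * fderiv ℝ ψ x (ev j) :=
      integral_congr_ae (by filter_upwards [h1] with x hx; rw [hx])
    have e2 : ∫ x, z' x (i, j) * ψ x = ∫ x, z x (i, j) * ψ x :=
      integral_congr_ae (by filter_upwards [h2] with x hx; rw [hx])
    rw [e1, e2]
    exact h.grad ψ a b i j
  div := by filter_upwards [h.div, h2] with x a b; rw [← b]; exact a
  trans := fun y => by
    have e1 : ∫ x, ‖v' (x + y) - v' x‖ ^ 2 = ∫ x, ‖v (x + y) - v x‖ ^ 2 := by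
      have h3 := (measurePreserving_add_right (volume : Measure E3) y).quasiMeasurePreserving.ae h1
      exact integral_congr_ae (by filter_upwards [h1, h3] with x a b; rw [a, b])
    have e2 : ∫ x, ‖z' x‖ ^ 2 = ∫ x, ‖z x‖ ^ 2 :=
      integral_congr_ae (by filter_upwards [h2] with x hx; rw [hx])
    rw [e1, e2]
    exact h.trans y

section

variable {Ω : Set E3} {F : Type} [NormedAddCommGroup F]

theorem memLp_ext (hΩ : MeasurableSet Ω) (f : Lp F 2 ((volume : Measure E3).restrict Ω)) :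
    MemLp (Ω.indicator (f : E3 → F)) 2 ((volume : Measure E3).restrict univ) := by
  rw [Measure.restrict_univ, memLp_indicator_iff_restrict hΩ]
  exact Lp.memLp f

theorem enorm_ext (hΩ : MeasurableSet Ω) (f g : Lp F 2 ((volume : Measure E3).restrict Ω))
    {φ : E3 → F} (hφ : MemLp φ 2 ((volume : Measure E3).restrict univ))
    (hg : g =ᵐ[volume.restrict Ω] φ) (hs : ∀ x, x ∉ Ω → φ x = 0) :
    ‖hφ.toLp φ - (memLp_ext hΩ f).toLp _‖ₑ = ‖g - f‖ₑ := by
  rw [Lp.enorm_def, Lp.enorm_def]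
  have e1 : ((hφ.toLp φ - (memLp_ext hΩ f).toLp _ : Lp F 2 ((volume : Measure E3).restrict univ))
      : E3 → F) =ᵐ[(volume : Measure E3).restrict univ] Ω.indicator (fun x => g x - f x) := by
    have h2 : ∀ᵐ x ∂((volume : Measure E3).restrict univ), x ∈ Ω → g x = φ x := by
      rw [Measure.restrict_univ]
      exact (ae_restrict_iff' hΩ).mp hg
    filter_upwards [Lp.coeFn_sub (hφ.toLp φ) ((memLp_ext hΩ f).toLp _), hφ.coeFn_toLp,
      (memLp_ext hΩ f).coeFn_toLp, h2] with x a b c d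
    rw [a, Pi.sub_apply, b, c]
    by_cases hx : x ∈ Ω
    · rw [indicator_of_mem hx, indicator_of_mem hx, d hx]
    · rw [indicator_of_notMem hx, indicator_of_notMem hx, hs x hx, sub_zero]
  rw [eLpNorm_congr_ae e1, Measure.restrict_univ, eLpNorm_indicator_eq_eLpNorm_restrict hΩ]
  refine eLpNorm_congr_ae ?_
  filter_upwards [Lp.coeFn_sub g f] with x a
  rw [a, Pi.sub_apply]

end

theorem ext_graph {Ω : Set E3} (hΩ : MeasurableSet Ω) {p : L2V Ω × L2M Ω} (hp : p ∈ graphW Ω) :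
    (((memLp_ext hΩ p.1).toLp _ : L2V univ), ((memLp_ext hΩ p.2).toLp _ : L2M univ))
      ∈ graphW univ := by
  have hp' : p ∈ closure (preW Ω : Set (L2V Ω × L2M Ω)) := by
    have := hp
    unfold graphW at this
    rwa [← SetLike.mem_coe, Submodule.topologicalClosure_coe] at this
  obtain ⟨q, hq, hlim⟩ := mem_closure_iff_seq_limit.mp hp'
  choose φ h1 h2 h3 using hq
  have m1 : ∀ n, MemLp (φ n) 2 ((volume : Measure E3).restrict univ) := fun n => by
    rw [Measure.restrict_univ]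
    exact (h1 n).memLp 2
  have m2 : ∀ n, MemLp (jac (φ n)) 2 ((volume : Measure E3).restrict univ) := fun n => by
    rw [Measure.restrict_univ]
    exact (h1 n).jac_memLp 2
  have hmem : ∀ n, (((m1 n).toLp _ : L2V univ), ((m2 n).toLp _ : L2M univ)) ∈
      (preW univ : Set (L2V univ × L2M univ)) := fun n =>
    ⟨φ n, ⟨(h1 n).smooth, (h1 n).compact, subset_univ _, (h1 n).divfree⟩,
      (m1 n).coeFn_toLp, (m2 n).coeFn_toLp⟩
  have hz : ∀ n x, x ∉ Ω → φ n x = 0 := fun n x hx =>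
    image_eq_zero_of_notMem_tsupport fun h => hx ((h1 n).supp h)
  have hz2 : ∀ n x, x ∉ Ω → jac (φ n) x = 0 := fun n x hx =>
    image_eq_zero_of_notMem_tsupport fun h => hx ((h1 n).supp (tsupport_jac_subset h))
  unfold graphW
  rw [← SetLike.mem_coe, Submodule.topologicalClosure_coe]
  refine mem_closure_iff_seq_limit.mpr ⟨_, hmem, ?_⟩
  have l1 : Tendsto (fun n => (q n).1) atTop (𝓝 p.1) := (continuous_fst.tendsto p).comp hlim
  have l2 : Tendsto (fun n => (q n).2) atTop (𝓝 p.2) := (continuous_snd.tendsto p).comp hlim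
  refine Tendsto.prodMk_nhds ?_ ?_
  · rw [tendsto_iff_edist_tendsto_0] at l1 ⊢
    refine l1.congr fun n => ?_
    rw [edist_eq_enorm_sub, edist_eq_enorm_sub]
    exact (enorm_ext hΩ p.1 (q n).1 (m1 n) (h2 n) (hz n)).symm
  · rw [tendsto_iff_edist_tendsto_0] at l2 ⊢
    refine l2.congr fun n => ?_
    rw [edist_eq_enorm_sub, edist_eq_enorm_sub]
    exact (enorm_ext hΩ p.2 (q n).2 (m2 n) (h3 n) (hz2 n)).symm

/-- The extension by zero of a field of `H¹_{0,σ}(Ω)`. -/
theorem hs_ext {Ω : Set E3} (hΩ : MeasurableSet Ω) {p : L2V Ω × L2M Ω} (hp : p ∈ graphW Ω) :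
    HS (Ω.indicator (p.1 : E3 → E3)) (Ω.indicator (p.2 : E3 → M3)) := by
  refine (stmH0 _ (ext_graph hΩ hp)).congr ?_ ?_
  · exact ae_univ.mp (memLp_ext hΩ p.1).coeFn_toLp
  · exact ae_univ.mp (memLp_ext hΩ p.2).coeFn_toLp

end Pool.Agent.Q67.HV
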