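import Pool.Agent.Q67.HV.ConeG2
import Pool.Agent.Q67.HV.Ext
import Pool.Agent.TH301.EQ.PubCor

/-!
Project HV: the `L⁴` bound and the energy equality if the large vorticities in the balls of a
certain radius are in cones.
-/

set_option autoImplicit false

open MeasureTheory Set Metric Filter Topology
open scoped InnerProductSpace ENNReal ContDiff NNReal
open H772R2.NS

namespace Pool.Agent.Q67.HV

theorem l4_cone (hF2 : StmF2) (hQ : StmQ) {κ : ℝ} (hκ : 0 < κ) (hκ1 : κ ≤ 1) :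
    ∃ C : ℝ, 0 < C ∧ ∀ (v : E3 → E3) (z : E3 → M3), HS v z → ∀ R M : ℝ, 0 < R → 0 ≤ M →
      (∀ x : E3, ∃ e : E3, ‖e‖ = 1 ∧ ∀ᵐ y : E3, y ∈ ball x R → M < ‖vor (z y)‖ →
        κ * ‖vor (z y)‖ ≤ ⟪e, vor (z y)⟫_ℝ) →
      eLpNorm v 4 (volume : Measure E3) ^ 4 ≤ ENNReal.ofReal
        (C * (((∫ y, ‖v y‖ ^ 2) / R + M ^ 2 * R ^ 4) * (∫ y, ‖z y‖ ^ 2)
          + ((∫ y, ‖v y‖ ^ 2) / R ^ 3 + M ^ 2 * R ^ 2) * ∫ y, ‖v y‖ ^ 2)) := by
  obtain ⟨C₁, hC₁, h1⟩ := coneG hF2 hκ hκ1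
  obtain ⟨C₂, hC₂, h2⟩ := hQ
  refine ⟨C₂ * (8 * C₁ ^ 2 + 8), by positivity, ?_⟩
  intro v z h R M hR hM hc
  set Y := ∫ y, ‖v y‖ ^ 2 with hY
  set X := ∫ y, ‖z y‖ ^ 2 with hX
  have hY0 : 0 ≤ Y := integral_nonneg fun y => by positivity
  have hX0 : 0 ≤ X := integral_nonneg fun y => by positivity
  set K := C₁ * (√Y / √R + M * R ^ 2) with hK
  have hK0 : 0 ≤ K := by positivity
  have h3 := h2 v z h K (R / 2) hK0 (by positivity) (fun x r hr hrR => by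
    obtain ⟨e, he, hce⟩ := hc x
    exact h1 v z h x e R M hR he hM hce r hr hrR)
  refine h3.trans (ENNReal.ofReal_le_ofReal ?_)
  have e1 : (√Y / √R) ^ 2 = Y / R := by
    rw [div_pow, Real.sq_sqrt hY0, Real.sq_sqrt hR.le]
  have h4 : K ^ 2 ≤ 2 * C₁ ^ 2 * (Y / R + M ^ 2 * R ^ 4) := by
    have h5 : (√Y / √R + M * R ^ 2) ^ 2 ≤ 2 * ((√Y / √R) ^ 2 + (M * R ^ 2) ^ 2) := by
      nlinarith [sq_nonneg (√Y / √R - M * R ^ 2)]
    rw [e1] at h5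
    calc K ^ 2 = C₁ ^ 2 * (√Y / √R + M * R ^ 2) ^ 2 := by rw [hK]; ring
      _ ≤ C₁ ^ 2 * (2 * (Y / R + (M * R ^ 2) ^ 2)) := by gcongr
      _ = _ := by ring
  rw [mul_assoc]
  refine mul_le_mul_of_nonneg_left ?_ hC₂.le
  have hR2 : (R / 2) ^ 2 = R ^ 2 / 4 := by ring
  have hR3 : (R / 2) ^ 3 = R ^ 3 / 8 := by ring
  have h6 : K ^ 2 / (R / 2) ^ 2 ≤ 8 * C₁ ^ 2 * (Y / R ^ 3 + M ^ 2 * R ^ 2) := by
    rw [hR2, div_le_iff₀ (by positivity)]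
    refine h4.trans (le_of_eq ?_)
    field_simp
    ring
  have h7 : Y / (R / 2) ^ 3 = 8 * (Y / R ^ 3) := by
    rw [hR3]
    field_simp
  rw [h7]
  have p1 : 0 ≤ Y / R + M ^ 2 * R ^ 4 := by positivity
  have p2 : 0 ≤ Y / R ^ 3 := by positivity
  have p3 : 0 ≤ M ^ 2 * R ^ 2 := by positivity
  calc K ^ 2 * X + (K ^ 2 / (R / 2) ^ 2 + 8 * (Y / R ^ 3)) * Y
      ≤ 2 * C₁ ^ 2 * (Y / R + M ^ 2 * R ^ 4) * X
        + (8 * C₁ ^ 2 * (Y / R ^ 3 + M ^ 2 * R ^ 2) + 8 * (Y / R ^ 3)) * Y := by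
        gcongr
    _ ≤ (8 * C₁ ^ 2 + 8) * ((Y / R + M ^ 2 * R ^ 4) * X + (Y / R ^ 3 + M ^ 2 * R ^ 2) * Y) := by
        have q1 : 0 ≤ (6 * C₁ ^ 2 + 8) * ((Y / R + M ^ 2 * R ^ 4) * X) := by positivity
        have q2 : 0 ≤ 8 * (M ^ 2 * R ^ 2) * Y := by positivity
        nlinarith

theorem norm_sq_Lp' {Ω : Set E3} {F : Type} [NormedAddCommGroup F] [InnerProductSpace ℝ F]
    (hΩ : MeasurableSet Ω) (f : Lp F 2 ((volume : Measure E3).restrict Ω)) :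
    ∫ x, ‖Ω.indicator (f : E3 → F) x‖ ^ 2 = ‖f‖ ^ 2 := by
  rw [Pool.Agent.Q224.HV.norm_sq_Lp, ← integral_indicator hΩ]
  refine integral_congr_ae (Eventually.of_forall fun x => ?_)
  by_cases hx : x ∈ Ω
  · simp [indicator_of_mem hx]
  · simp [indicator_of_notMem hx]

/-- `u ∈ L⁴(0,T; L⁴(Ω))` from the cone condition for the large vorticities. -/
theorem l4_time (hF2 : StmF2) (hQ : StmQ) {Ω : Set E3} (hΩ : IsOpen Ω) {ν T κ : ℝ}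
    (hκ : 0 < κ) (hκ1 : κ ≤ 1) {u : ℝ → L2V Ω} {G : ℝ → L2M Ω} {f : ℝ → L2V Ω}
    (hu : IsWeakSolution Ω ν T u G f) {R M : ℝ → ℝ} (hR : ∀ t, 0 < R t) (hM : ∀ t, 0 ≤ M t)
    (h1 : IntegrableOn (fun t => (1 / R t + M t ^ 2 * R t ^ 4) * ‖G t‖ ^ 2) (Ioo 0 T))
    (h2 : IntegrableOn (fun t => 1 / R t ^ 3 + M t ^ 2 * R t ^ 2) (Ioo 0 T))
    (hc : ∀ᵐ t ∂(volume.restrict (Ioo 0 T)), ∀ x : E3, ∃ e : E3, ‖e‖ = 1 ∧
      ∀ᵐ y ∂(volume.restrict Ω), y ∈ ball x (R t) → M t < ‖vor (G t y)‖ →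
        κ * ‖vor (G t y)‖ ≤ ⟪e, vor (G t y)⟫_ℝ) :
    ∫⁻ t in Ioo 0 T, eLpNorm (u t) 4 (volume.restrict Ω) ^ 4 ≠ ⊤ := by
  obtain ⟨C, hC, H⟩ := l4_cone hF2 hQ hκ hκ1
  obtain ⟨m, hm⟩ := hu.bdd
  set m' := |m| + 1 with hm'
  have hm0 : 0 < m' := by positivity
  have hle : ∀ᵐ t ∂(volume.restrict (Ioo 0 T)), eLpNorm (u t) 4 (volume.restrict Ω) ^ 4
      ≤ ENNReal.ofReal (C * (m' ^ 2 + 1) ^ 2 * ((1 / R t + M t ^ 2 * R t ^ 4) * ‖G t‖ ^ 2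
        + (1 / R t ^ 3 + M t ^ 2 * R t ^ 2))) := by
    filter_upwards [hu.grad, hc, ae_restrict_mem measurableSet_Ioo] with t ht hct htI
    have hS := hs_ext hΩ.measurableSet (p := (u t, G t)) (mem_graphW.mpr ht)
    have hcone : ∀ x : E3, ∃ e : E3, ‖e‖ = 1 ∧ ∀ᵐ y : E3, y ∈ ball x (R t) →
        M t < ‖vor (Ω.indicator (G t : E3 → M3) y)‖ →
        κ * ‖vor (Ω.indicator (G t : E3 → M3) y)‖ ≤
          ⟪e, vor (Ω.indicator (G t : E3 → M3) y)⟫_ℝ := by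
      intro x
      obtain ⟨e, he, hce⟩ := hct x
      refine ⟨e, he, ?_⟩
      have h3 := (ae_restrict_iff' hΩ.measurableSet).mp hce
      filter_upwards [h3] with y hy hyB hlt
      by_cases hyΩ : y ∈ Ω
      · rw [indicator_of_mem hyΩ] at hlt ⊢
        exact hy hyΩ hyB hlt
      · rw [indicator_of_notMem hyΩ] at hlt
        have : vor (0 : M3) = 0 := by
          have := vor_smul 0 (0 : M3)
          simpa using this
        rw [this, norm_zero] at hlt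
        exact absurd hlt (not_lt.2 (hM t))
    have h4 := H _ _ hS (R t) (M t) (hR t) (hM t) hcone
    have e1 : eLpNorm (Ω.indicator (u t : E3 → E3)) 4 (volume : Measure E3)
        = eLpNorm (u t) 4 (volume.restrict Ω) :=
      eLpNorm_indicator_eq_eLpNorm_restrict hΩ.measurableSet
    rw [← e1]
    refine h4.trans (ENNReal.ofReal_le_ofReal ?_)
    rw [norm_sq_Lp' hΩ.measurableSet (u t), norm_sq_Lp' hΩ.measurableSet (G t)]
    have h5 : ‖u t‖ ≤ m' := (hm t (Ioo_subset_Icc_self htI)).trans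
      ((le_abs_self m).trans (by linarith))
    have h6 : ‖u t‖ ^ 2 ≤ m' ^ 2 := by gcongr
    have hRt := hR t
    have hMt := hM t
    have q1 : ‖u t‖ ^ 2 / R t + M t ^ 2 * R t ^ 4
        ≤ (m' ^ 2 + 1) * (1 / R t + M t ^ 2 * R t ^ 4) := by
      have a1 : ‖u t‖ ^ 2 / R t ≤ m' ^ 2 * (1 / R t) := by
        rw [mul_one_div]; gcongr
      have a2 : 0 ≤ 1 / R t := by positivity
      have a3 : 0 ≤ m' ^ 2 * (M t ^ 2 * R t ^ 4) := by positivity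
      nlinarith
    have q2 : ‖u t‖ ^ 2 / R t ^ 3 + M t ^ 2 * R t ^ 2
        ≤ (m' ^ 2 + 1) * (1 / R t ^ 3 + M t ^ 2 * R t ^ 2) := by
      have a1 : ‖u t‖ ^ 2 / R t ^ 3 ≤ m' ^ 2 * (1 / R t ^ 3) := by
        rw [mul_one_div]; gcongr
      have a2 : 0 ≤ 1 / R t ^ 3 := by positivity
      have a3 : 0 ≤ m' ^ 2 * (M t ^ 2 * R t ^ 2) := by positivity
      nlinarith
    have b1 : 0 ≤ (1 / R t + M t ^ 2 * R t ^ 4) * ‖G t‖ ^ 2 := by positivity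
    have b2 : 0 ≤ 1 / R t ^ 3 + M t ^ 2 * R t ^ 2 := by positivity
    calc C * ((‖u t‖ ^ 2 / R t + M t ^ 2 * R t ^ 4) * ‖G t‖ ^ 2
          + (‖u t‖ ^ 2 / R t ^ 3 + M t ^ 2 * R t ^ 2) * ‖u t‖ ^ 2)
        ≤ C * ((m' ^ 2 + 1) * (1 / R t + M t ^ 2 * R t ^ 4) * ‖G t‖ ^ 2
          + (m' ^ 2 + 1) * (1 / R t ^ 3 + M t ^ 2 * R t ^ 2) * m' ^ 2) := by
          gcongr
      _ ≤ C * (m' ^ 2 + 1) ^ 2 * ((1 / R t + M t ^ 2 * R t ^ 4) * ‖G t‖ ^ 2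
          + (1 / R t ^ 3 + M t ^ 2 * R t ^ 2)) := by
          rw [mul_assoc C]
          refine mul_le_mul_of_nonneg_left ?_ hC.le
          set A := (1 / R t + M t ^ 2 * R t ^ 4) * ‖G t‖ ^ 2
          set B := 1 / R t ^ 3 + M t ^ 2 * R t ^ 2
          have c1 : (m' ^ 2 + 1) * (1 / R t + M t ^ 2 * R t ^ 4) * ‖G t‖ ^ 2
              = (m' ^ 2 + 1) * A := by simp only [A]; ring
          rw [c1]
          have c2 : 0 ≤ m' ^ 2 * (m' ^ 2 + 1) * A := by positivity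
          have c3 : 0 ≤ (m' ^ 2 + 1) * B := by positivity
          nlinarith
  refine ((lintegral_mono_ae hle).trans_lt ?_).ne
  have hint : Integrable (fun t => C * (m' ^ 2 + 1) ^ 2 *
      ((1 / R t + M t ^ 2 * R t ^ 4) * ‖G t‖ ^ 2 + (1 / R t ^ 3 + M t ^ 2 * R t ^ 2)))
      (volume.restrict (Ioo 0 T)) := (h1.add h2).const_mul _
  rw [← ofReal_integral_eq_lintegral_ofReal hint (Eventually.of_forall fun t => by
    have := hR t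
    have := hM t
    positivity)]
  exact ENNReal.ofReal_lt_top

open H772R2.NS.Pub in
/-- `L⁴(0,T; L⁴)` implies the energy equality. -/
theorem energy_of_l4 {Ω : Set R3} (hΩ : IsOpen Ω) {ν T : ℝ} (hν : 0 ≤ ν) (hT : 0 < T)
    {u : ℝ → L2 Ω R3} {G : ℝ → L2 Ω Mat} {f : ℝ → L2 Ω R3} (hu : Pub.IsWeakSolution Ω ν T u G f)
    (h4 : ∫⁻ t in Ioo 0 T, norm4 (u t) ^ 4 ≠ ⊤) :
    ∀ t ∈ Icc 0 T, Pub.energyDefect ν u G f t = 0 := by
  refine Pool.Agent.TH301.EQ.pub_large hΩ hν hT hu (K := 1) (p := 4) zero_le_one (by norm_num)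
    (by norm_num) (fun _ => by simpa using h4) (R := fun _ => 0) (by simp) ?_
  refine Eventually.of_forall fun t => Eventually.of_forall fun s => Eventually.of_forall
    fun x _ _ => ?_
  have h1 : Pool.Agent.TH301.EQ.cross ((u s).fn x) ((u t).fn x) ≤
      ‖(u s).fn x‖ * ‖(u t).fn x‖ := by
    unfold Pool.Agent.TH301.EQ.cross
    refine Real.sqrt_le_iff.2 ⟨by positivity, ?_⟩
    nlinarith [sq_nonneg ⟪(u s).fn x, (u t).fn x⟫_ℝ]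
  have h2 : 1 ≤ Pool.Agent.TH301.EQ.modulus 4 u s t := by
    unfold Pool.Agent.TH301.EQ.modulus
    norm_num
  refine h1.trans ?_
  have h3 : 0 ≤ ‖(u s).fn x‖ * ‖(u t).fn x‖ := by positivity
  nlinarith

end Pool.Agent.Q67.HV
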