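import Pool.Agent.Q67.HV.Shift
import Pool.Agent.TH301.EQ.Time

/-!
Project HV: energy equality of Leray-Hopf solutions in `ℝ³` with the double cone condition.
-/

set_option autoImplicit false

open MeasureTheory Set Metric Filter Topology
open scoped InnerProductSpace ENNReal ContDiff NNReal
open H772R2.NS

namespace Pool.Agent.Q67.HV

theorem energy_l4_NS {Ω : Set E3} (hΩ : IsOpen Ω) {ν T : ℝ} (hν : 0 ≤ ν) (hT : 0 < T)
    {u : ℝ → L2V Ω} {G : ℝ → L2M Ω} {f : ℝ → L2V Ω} (hu : IsWeakSolution Ω ν T u G f)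
    (h4 : ∫⁻ t in Ioo 0 T, eLpNorm (u t) 4 (volume.restrict Ω) ^ 4 ≠ ⊤) :
    ∀ t ∈ Icc 0 T, energyDefect ν u G f t = 0 := by
  obtain ⟨M, hM⟩ := hu.bdd
  have hG2 : Integrable (fun t => ‖G t‖ ^ 2) (volume.restrict (Ioo 0 T)) :=
    (memLp_two_iff_integrable_sq_norm hu.gradL2.aestronglyMeasurable).mp hu.gradL2
  have hmeas := hu.m_meas hΩ
  have hW : ∀ᵐ t ∂(volume.restrict (Ioo 0 T)), (u t, G t) ∈ graphW Ω := by
    filter_upwards [hu.grad] with t ht using mem_graphW.mpr ht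
  have hm2 : Integrable (fun t => ‖tensL (u t)‖ ^ 2) (volume.restrict (Ioo 0 T)) := by
    refine ⟨hmeas.norm.pow 2, ?_⟩
    have e1 : ∀ᵐ t ∂(volume.restrict (Ioo 0 T)), ‖‖tensL (u t)‖ ^ 2‖ₑ
        = eLpNorm (u t) 4 (volume.restrict Ω) ^ 4 := by
      filter_upwards [hW] with t ht
      have h1 := enorm_tensL hΩ.measurableSet ht
      have h2 : ‖‖tensL (u t)‖ ^ 2‖ₑ = ‖tensL (u t)‖ₑ ^ 2 := by
        rw [enorm_pow, enorm_norm]
      rw [h2]
      have h3 : ‖tensL (u t)‖ₑ = eLpNorm (u t) 4 (volume.restrict Ω) ^ 2 := h1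
      rw [h3, ← pow_mul]
    rw [hasFiniteIntegral_def, lintegral_congr_ae e1]
    exact lt_top_iff_ne_top.mpr h4
  have hψ : IntegrableOn (fun t => ‖tensL (u t)‖ ^ 2 + ‖G t‖ ^ 2) (Ioo 0 T) := hm2.add hG2
  refine Pool.Agent.TH301.EQ.energy_eq_two hΩ hν hT hu hM
    (ψ := fun t => ‖tensL (u t)‖ ^ 2 + ‖G t‖ ^ 2) (fun t => by positivity) hψ ?_
  refine Eventually.of_forall fun t => Eventually.of_forall fun s => ?_
  have h1 : |⟪tensL (u s), G t⟫_ℝ| ≤ ‖tensL (u s)‖ * ‖G t‖ := abs_real_inner_le_norm _ _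
  have h2 : 0 ≤ |s - t| * ((‖tensL (u s)‖ ^ 2 + ‖G s‖ ^ 2) * (‖tensL (u t)‖ ^ 2 + ‖G t‖ ^ 2)) := by
    positivity
  have h3 : ‖tensL (u s)‖ * ‖G t‖ ≤ ‖tensL (u s)‖ ^ 2 + ‖G t‖ ^ 2 := by
    nlinarith [sq_nonneg (‖tensL (u s)‖ - ‖G t‖), sq_nonneg (‖tensL (u s)‖),
      sq_nonneg (‖G t‖)]
  have h4 : 0 ≤ ‖G s‖ ^ 2 := by positivity
  have h5 : 0 ≤ ‖tensL (u t)‖ ^ 2 := by positivity
  show |⟪tensL (u s), G t⟫_ℝ| ≤ (‖tensL (u s)‖ ^ 2 + ‖G s‖ ^ 2) + (‖tensL (u t)‖ ^ 2 + ‖G t‖ ^ 2)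
    + |s - t| * ((‖tensL (u s)‖ ^ 2 + ‖G s‖ ^ 2) * (‖tensL (u t)‖ ^ 2 + ‖G t‖ ^ 2))
  linarith

/-- The energy defect is constant on `[s, T]`. -/
theorem defect_const (hF : StmF) (hQ : StmQ) (hL : StmL) {ν T κ R : ℝ} {u : ℝ → L2V univ}
    {G : ℝ → L2M univ} (hν : 0 < ν) (hT : 0 < T) (hκ : 0 < κ) (hκ1 : κ ≤ 1) (hR : 0 < R)
    (hu : IsWeakSolution univ ν T u G 0) {s : ℝ} {z : L2M univ} (hs : 0 ≤ s) (hsT : s < T)
    (hz : (u s, z) ∈ graphW univ)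
    (hd : ∀ᵐ t ∂(volume.restrict (Ioo s T)), DC κ R (fun y => vor (G t y))) :
    ∀ t ∈ Icc s T, energyDefect ν u G 0 t = energyDefect ν u G 0 s := by
  have h1 := main_dc hF hQ hL hν hT hκ hκ1 hR hu hs hsT hz hd
  have h2 := shift hu hs hsT
  have h3 : ∫⁻ t in Ioo 0 (T - s), eLpNorm (u (s + t)) 4 (volume.restrict (univ : Set E3)) ^ 4
      ≠ ⊤ := by
    have e1 : ∫⁻ t in Ioo s T, eLpNorm (u t) 4 (volume : Measure E3) ^ 4
        = ∫⁻ t in Ioo 0 (T - s), eLpNorm (u (s + t)) 4 (volume : Measure E3) ^ 4 := by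
      have := (mp_shift s T).lintegral_comp_emb (measurableEmbedding_addLeft s)
        (fun t => eLpNorm (u t) 4 (volume : Measure E3) ^ 4)
      exact this.symm
    have e0 : ∀ F : E3 → E3, eLpNorm F 4 (volume.restrict (univ : Set E3))
        = eLpNorm F 4 (volume : Measure E3) := fun F => by rw [Measure.restrict_univ]
    have e2 : ∫⁻ t in Ioo 0 (T - s), eLpNorm (u (s + t)) 4 (volume.restrict (univ : Set E3)) ^ 4
        = ∫⁻ t in Ioo 0 (T - s), eLpNorm (u (s + t)) 4 (volume : Measure E3) ^ 4 :=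
      lintegral_congr fun t => by rw [e0]
    rw [e2, ← e1]
    exact h1.ne
  intro t ht
  have h4 := energy_l4_NS isOpen_univ hν.le (by linarith : 0 < T - s) h2 h3 (t - s)
    ⟨by linarith [ht.1], by linarith [ht.2]⟩
  have h5 := defect_shift (s := s) (t := t - s) hu hs (by linarith [ht.1]) (by linarith [ht.2])
  rw [add_sub_cancel] at h5
  have h6 : energyDefect ν (fun t => u (s + t)) (fun t => G (s + t)) (fun t => (0 : ℝ → L2V univ)
      (s + t)) (t - s) = energyDefect ν (fun t => u (s + t)) (fun t => G (s + t)) 0 (t - s) := rfl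
  rw [h6, h5] at h4
  linarith

/-- Energy equality for Leray-Hopf solutions. -/
theorem energy_lh (hF : StmF) (hQ : StmQ) (hL : StmL) {ν T : ℝ} {u : ℝ → L2V univ}
    {G : ℝ → L2M univ} (hν : 0 < ν) (hT : 0 < T) (hu : IsWeakSolution univ ν T u G 0)
    (hin : ∀ t ∈ Icc 0 T, 0 ≤ energyDefect ν u G 0 t)
    (hd : ∀ s ∈ Ioo 0 T, ∃ κ R : ℝ, 0 < κ ∧ κ ≤ 1 ∧ 0 < R ∧
      ∀ᵐ t ∂(volume.restrict (Ioo s T)), DC κ R (fun y => vor (G t y))) :
    ∀ t ∈ Icc 0 T, energyDefect ν u G 0 t = 0 := by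
  have hgood : ∀ᵐ s ∂(volume.restrict (Ioo 0 T)), (u s, G s) ∈ graphW univ := by
    filter_upwards [hu.grad] with t ht using mem_graphW.mpr ht
  -- good times near zero
  have hex : ∀ ε : ℝ, 0 < ε → ∃ s ∈ Ioo 0 (min ε T), (u s, G s) ∈ graphW univ := by
    intro ε hε
    have hm : 0 < min ε T := lt_min hε hT
    have h1 : ∀ᵐ s ∂(volume.restrict (Ioo 0 (min ε T))), (u s, G s) ∈ graphW univ :=
      ae_restrict_of_ae_restrict_of_subset (Ioo_subset_Ioo_right (min_le_right _ _)) hgood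
    have h2 : (volume.restrict (Ioo 0 (min ε T)) : Measure ℝ) ≠ 0 := by
      intro h0
      have : (volume : Measure ℝ) (Ioo 0 (min ε T)) = 0 := by
        rw [← Measure.restrict_apply_univ, h0]; rfl
      rw [Real.volume_Ioo, sub_zero] at this
      exact absurd (ENNReal.ofReal_eq_zero.mp this) (not_le.2 hm)
    haveI : NeZero (volume.restrict (Ioo 0 (min ε T)) : Measure ℝ) := ⟨h2⟩
    obtain ⟨s, hs1, hs2⟩ := (h1.and (ae_restrict_mem measurableSet_Ioo)).exists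
    exact ⟨s, hs2, hs1⟩
  have hconst : ∀ t ∈ Ioc 0 T, energyDefect ν u G 0 t = energyDefect ν u G 0 T := by
    intro t ht
    obtain ⟨s, hs, hsg⟩ := hex t ht.1
    have hsT : s < T := hs.2.trans_le (min_le_right _ _)
    have hst : s < t := hs.2.trans_le (min_le_left _ _)
    obtain ⟨κ, R, hκ, hκ1, hR, hdc⟩ := hd s ⟨hs.1, hsT⟩
    have h1 := defect_const hF hQ hL hν hT hκ hκ1 hR hu hs.1.le hsT hsg hdc
    rw [h1 t ⟨hst.le, ht.2⟩, h1 T ⟨hsT.le, le_rfl⟩]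
  -- the limit at zero
  set D := energyDefect ν u G 0 T with hD
  have hD0 : 0 ≤ D := hin T ⟨hT.le, le_rfl⟩
  have hle : D ≤ 0 := by
    by_contra hcon
    push Not at hcon
    have hnorm : ∀ t ∈ Ioc 0 T, ‖u t‖ ^ 2 ≤ ‖u 0‖ ^ 2 - 2 * D := by
      intro t ht
      have h1 := hconst t ht
      unfold energyDefect at h1
      simp only [Pi.zero_apply, inner_zero_left, intervalIntegral.integral_zero, add_zero] at h1
      have h2 : 0 ≤ ν * ∫ τ in (0 : ℝ)..t, ‖G τ‖ ^ 2 :=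
        mul_nonneg hν.le (intervalIntegral.integral_nonneg ht.1.le fun τ _ => by positivity)
      linarith
    have hw := (hu.wcont (u 0)) 0 ⟨le_rfl, hT.le⟩
    have hw2 : Tendsto (fun t => ⟪u t, u 0⟫_ℝ) (𝓝[>] 0) (𝓝 (‖u 0‖ ^ 2)) := by
      have h1 : Tendsto (fun t => ⟪u t, u 0⟫_ℝ) (𝓝[Icc 0 T] 0) (𝓝 ⟪u 0, u 0⟫_ℝ) := hw
      rw [real_inner_self_eq_norm_sq] at h1
      refine h1.mono_left ?_
      rw [nhdsWithin_le_iff]
      filter_upwards [Ioo_mem_nhdsGT hT] with t ht using ⟨ht.1.le, ht.2.le⟩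
    have hub : ∀ᶠ t in 𝓝[>] (0 : ℝ), ⟪u t, u 0⟫_ℝ ≤ ‖u 0‖ ^ 2 - D := by
      filter_upwards [Ioo_mem_nhdsGT hT] with t ht
      have h1 := hnorm t ⟨ht.1, ht.2.le⟩
      have h2 := real_inner_le_norm (u t) (u 0)
      nlinarith [sq_nonneg (‖u t‖ - ‖u 0‖)]
    have := le_of_tendsto hw2 hub
    linarith
  have hDz : D = 0 := le_antisymm hle hD0
  intro t ht
  rcases eq_or_lt_of_le ht.1 with h0 | h0
  · rw [← h0]
    unfold energyDefect
    simp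
  · rw [hconst t ⟨h0, ht.2⟩, hDz]

end Pool.Agent.Q67.HV
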