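import Pool.Agent.Q67.HV.EnLH
import Pool.Agent.Q67.HV.EnG
import Pool.Agent.Q224.HV.H0
import Pool.Agent.Q224.HV.E0
import Pool.Agent.Q224.HV.W
import Pool.Agent.Q211.HV.N2
import Pool.Agent.Q225.HV.P
import Pool.Agent.Q203.HV.T2
import Pool.Agent.Q211.HV.B3
import Pool.Agent.Q225.HV.L
import Pool.Agent.Q150.HV.F2
import Pool.Agent.Q52.HV.M
import Pool.Agent.Q175.HV.Q
import Pool.Agent.Q175.HV.F1

/-!
Project HV: assembly.
-/

set_option autoImplicit false

open MeasureTheory Set Metric Filter Topology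
open scoped InnerProductSpace ENNReal ContDiff NNReal
open H772R2.NS

namespace Pool.Agent.Q67.HV

open Pool.Agent

theorem a_H0 : StmH0 := Q224.HV.stmH0
theorem a_E0 : StmE0 := Q224.HV.stmE0
theorem a_W : StmW := Q224.HV.stmW
theorem a_N : StmN := Q211.HV.stmN a_E0 a_W
theorem a_P : StmP := Q225.HV.stmP
theorem a_T : StmT := Q203.HV.t_T a_W
theorem a_B : StmB := Q211.HV.stmB a_H0 a_E0 a_W a_N a_P a_T
theorem a_L : StmL := Q225.HV.stmL a_H0 a_E0 a_W a_B
theorem a_F2 : StmF2 := Q150.HV.t_F2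
theorem a_M : StmM := Q52.HV.t_M
theorem a_Q : StmQ := Q175.HV.stmQ a_M
theorem a_F1 : StmF1 := Q175.HV.stmF1 a_E0 a_W
theorem a_F : StmF := t_StmF a_F1 a_F2

end Pool.Agent.Q67.HV
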