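import Pool.Agent.Q67.HV.AsmF

/-!
Project HV: the theorem for the double cone condition, from the statements.
-/

set_option autoImplicit false

open MeasureTheory Set Metric Filter Topology
open scoped InnerProductSpace ENNReal ContDiff NNReal
open H772R2.NS

namespace Pool.Agent.Q67.HV

/-- The double cone condition on all the balls of radius `R`. -/
def DC (κ R : ℝ) (w : E3 → E3) : Prop :=
  ∀ x : E3, ∃ e : E3, ‖e‖ = 1 ∧ ∀ᵐ y : E3, y ∈ ball x R → κ * ‖w y‖ ≤ |⟪e, w y⟫_ℝ|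

theorem fixed (hF : StmF) (hQ : StmQ) {κ R : ℝ} (hκ : 0 < κ) (hκ1 : κ ≤ 1) (hR : 0 < R) :
    ∃ C : ℝ, 0 < C ∧ ∀ (v : E3 → E3) (z : E3 → M3) (L : ℝ), HS v z → Reg z → 0 ≤ L →
      (∀ x : E3, ∫ y in ball x R, ‖vor (z y)‖ ≤ L) → DC κ R (fun y => vor (z y)) →
      eLpNorm v 4 (volume : Measure E3) ^ 4 ≤ ENNReal.ofReal (C * (L ^ 2 * (∫ x, ‖z x‖ ^ 2)
        + (L ^ 2 + ∫ x, ‖v x‖ ^ 2) * ∫ x, ‖v x‖ ^ 2)) := by
  obtain ⟨C₁, hC₁, h1⟩ := hF κ hκ hκ1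
  obtain ⟨C₂, hC₂, h2⟩ := hQ
  refine ⟨C₂ * (C₁ ^ 2 / R ^ 2 + C₁ ^ 2 / R ^ 4 + 1 / R ^ 3), by positivity, ?_⟩
  intro v z L hS hReg hL hb hd
  have hK : ∀ (x : E3) (r : ℝ), 0 < r → r ≤ R → ∫ y in ball x r, ‖vor (z y)‖ ≤ C₁ * L / R * r := by
    intro x r hr hrR
    obtain ⟨e, he, hc⟩ := hd x
    refine (h1 v z hS hReg x e R hR he hc r hr hrR).trans ?_
    have := mul_le_mul_of_nonneg_left (hb x) (by positivity : 0 ≤ C₁ * (r / R))
    refine this.trans (le_of_eq ?_)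
    field_simp
  refine (h2 v z hS (C₁ * L / R) R (by positivity) hR hK).trans (ENNReal.ofReal_le_ofReal ?_)
  have hz : 0 ≤ ∫ x, ‖z x‖ ^ 2 := integral_nonneg fun x => by positivity
  have hv : 0 ≤ ∫ x, ‖v x‖ ^ 2 := integral_nonneg fun x => by positivity
  have hR' : R ≠ 0 := hR.ne'
  have e1 : (C₁ * L / R) ^ 2 = C₁ ^ 2 / R ^ 2 * L ^ 2 := by field_simp
  have e2 : (C₁ * L / R) ^ 2 / R ^ 2 = C₁ ^ 2 / R ^ 4 * L ^ 2 := by field_simp
  rw [e2, e1, mul_assoc C₂]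
  refine mul_le_mul_of_nonneg_left ?_ hC₂.le
  set a := C₁ ^ 2 / R ^ 2
  set b := C₁ ^ 2 / R ^ 4
  set c := 1 / R ^ 3
  have ha : 0 ≤ a := by positivity
  have hb' : 0 ≤ b := by positivity
  have hc' : 0 ≤ c := by positivity
  set X := ∫ x, ‖z x‖ ^ 2
  set Y := ∫ x, ‖v x‖ ^ 2
  have e3 : Y / R ^ 3 = c * Y := by
    simp only [c]; ring
  rw [e3]
  have p1 : 0 ≤ b * (L ^ 2 * X) := by positivity
  have p2 : 0 ≤ c * (L ^ 2 * X) := by positivity
  have p3 : 0 ≤ a * ((L ^ 2 + Y) * Y) := by positivity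
  have p4 : 0 ≤ b * (Y * Y) := by positivity
  have p5 : 0 ≤ c * (L ^ 2 * Y) := by positivity
  nlinarith

theorem main_dc (hF : StmF) (hQ : StmQ) (hL : StmL) {ν T κ R : ℝ} {u : ℝ → L2V univ}
    {G : ℝ → L2M univ} (hν : 0 < ν) (hT : 0 < T) (hκ : 0 < κ) (hκ1 : κ ≤ 1) (hR : 0 < R)
    (hu : IsWeakSolution univ ν T u G 0) {s : ℝ} {z : L2M univ} (hs : 0 ≤ s) (hsT : s < T)
    (hz : (u s, z) ∈ graphW univ)
    (hd : ∀ᵐ t ∂(volume.restrict (Ioo s T)), DC κ R (fun y => vor (G t y))) :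
    ∫⁻ t in Ioo s T, eLpNorm (u t) 4 (volume : Measure E3) ^ 4 < ⊤ := by
  obtain ⟨C, hC, h1⟩ := fixed hF hQ hκ hκ1 hR
  obtain ⟨L, h2⟩ := hL ν T R u G hν hT hR hu s z hs hsT hz
  obtain ⟨M, hM⟩ := hu.bdd
  have hsub : Ioo s T ⊆ Ioo 0 T := Ioo_subset_Ioo_left hs
  have hG2 : Integrable (fun t => ‖G t‖ ^ 2) (volume.restrict (Ioo s T)) := by
    have : Integrable (fun t => ‖G t‖ ^ 2) (volume.restrict (Ioo 0 T)) :=
      (memLp_two_iff_integrable_sq_norm hu.gradL2.aestronglyMeasurable).mp hu.gradL2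
    exact IntegrableOn.mono_set this hsub
  have hn : ∀ (F : L2V univ), ∫ x, ‖F x‖ ^ 2 = ‖F‖ ^ 2 := by
    intro F
    have h3 : ⟪F, F⟫_ℝ = ‖F‖ ^ 2 := real_inner_self_eq_norm_sq F
    rw [← h3, L2.inner_def, setIntegral_univ]
    refine integral_congr_ae (Eventually.of_forall fun x => ?_)
    exact (real_inner_self_eq_norm_sq (F x)).symm
  have hn' : ∀ (F : L2M univ), ∫ x, ‖F x‖ ^ 2 = ‖F‖ ^ 2 := by
    intro F
    have h3 : ⟪F, F⟫_ℝ = ‖F‖ ^ 2 := real_inner_self_eq_norm_sq F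
    rw [← h3, L2.inner_def, setIntegral_univ]
    refine integral_congr_ae (Eventually.of_forall fun x => ?_)
    exact (real_inner_self_eq_norm_sq (F x)).symm
  have hle : ∀ᵐ t ∂(volume.restrict (Ioo s T)), eLpNorm (u t) 4 (volume : Measure E3) ^ 4
      ≤ ENNReal.ofReal (C * (|L| ^ 2 * ‖G t‖ ^ 2 + (|L| ^ 2 + M ^ 2) * M ^ 2)) := by
    filter_upwards [h2, hd, ae_restrict_mem measurableSet_Ioo] with t ht hdt htI
    obtain ⟨hS, hReg, hb⟩ := ht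
    refine (h1 (u t) (G t) |L| hS hReg (abs_nonneg L)
      (fun x => (hb x).trans (le_abs_self L)) hdt).trans (ENNReal.ofReal_le_ofReal ?_)
    rw [hn, hn']
    have h4 : ‖u t‖ ≤ M := hM t (Ioo_subset_Icc_self (hsub htI))
    have h5 : ‖u t‖ ^ 2 ≤ M ^ 2 := by gcongr
    gcongr
  refine (lintegral_mono_ae hle).trans_lt ?_
  have hint : Integrable (fun t => C * (|L| ^ 2 * ‖G t‖ ^ 2 + (|L| ^ 2 + M ^ 2) * M ^ 2))
      (volume.restrict (Ioo s T)) :=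
    ((hG2.const_mul _).add (integrable_const _)).const_mul C
  rw [← ofReal_integral_eq_lintegral_ofReal hint
    (Eventually.of_forall fun t => by positivity)]
  exact ENNReal.ofReal_lt_top

/-- Hoelder continuity of the direction implies the double cone condition. -/
theorem dc_of_hoelder {β c : ℝ} (hβ : 0 < β) : ∃ R : ℝ, 0 < R ∧ ∀ w : E3 → E3,
    (∀ᵐ x : E3, ∀ᵐ y : E3, w x ≠ 0 → w y ≠ 0 →
      Real.sin (InnerProductGeometry.angle (w x) (w y)) ≤ c * ‖x - y‖ ^ β) → DC (1 / 2) R w := by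
  obtain ⟨R, hR, hRc⟩ : ∃ R : ℝ, 0 < R ∧ |c| * (2 * R) ^ β ≤ 1 / 2 := by
    refine ⟨(1 / (2 * (|c| + 1))) ^ (1 / β) / 2, by positivity, ?_⟩
    have e1 : 2 * ((1 / (2 * (|c| + 1))) ^ (1 / β) / 2) = (1 / (2 * (|c| + 1))) ^ (1 / β) := by ring
    rw [e1, ← Real.rpow_mul (by positivity), one_div_mul_cancel hβ.ne', Real.rpow_one]
    have h0 := abs_nonneg c
    rw [mul_one_div, div_le_iff₀ (by positivity)]
    linarith
  refine ⟨R, hR, fun w hw x => ?_⟩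
  by_cases hz : ∀ᵐ y : E3, y ∈ ball x R → w y = 0
  · refine ⟨ev 0, by simp, ?_⟩
    filter_upwards [hz] with y hy hyB
    rw [hy hyB]
    simp
  · have hex : ∃ a ∈ ball x R, w a ≠ 0 ∧ ∀ᵐ y : E3, w a ≠ 0 → w y ≠ 0 →
        Real.sin (InnerProductGeometry.angle (w a) (w y)) ≤ c * ‖a - y‖ ^ β := by
      by_contra hcon
      apply hz
      filter_upwards [hw] with a ha haB
      by_contra hne
      exact hcon ⟨a, haB, hne, ha⟩
    obtain ⟨a, haB, hne, ha⟩ := hex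
    have hna : 0 < ‖w a‖ := norm_pos_iff.2 hne
    refine ⟨‖w a‖⁻¹ • w a, by rw [norm_smul, norm_inv, norm_norm, inv_mul_cancel₀ hna.ne'], ?_⟩
    filter_upwards [ha] with y hy hyB
    by_cases h0 : w y = 0
    · rw [h0]; simp
    have h1 := hy hne h0
    have hny : 0 < ‖w y‖ := norm_pos_iff.2 h0
    have hd : ‖a - y‖ ≤ 2 * R := by
      have e1 : a - y = (a - x) - (y - x) := by abel
      rw [e1]
      have h2 : ‖a - x‖ < R := by rwa [mem_ball, dist_eq_norm] at haB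
      have h3 : ‖y - x‖ < R := by rwa [mem_ball, dist_eq_norm] at hyB
      exact (norm_sub_le _ _).trans (by linarith)
    have h4 : c * ‖a - y‖ ^ β ≤ 1 / 2 := by
      have h5 : ‖a - y‖ ^ β ≤ (2 * R) ^ β := Real.rpow_le_rpow (norm_nonneg _) hd hβ.le
      calc c * ‖a - y‖ ^ β ≤ |c| * ‖a - y‖ ^ β :=
            mul_le_mul_of_nonneg_right (le_abs_self c) (by positivity)
        _ ≤ |c| * (2 * R) ^ β := mul_le_mul_of_nonneg_left h5 (abs_nonneg c)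
        _ ≤ 1 / 2 := hRc
    set θ := InnerProductGeometry.angle (w a) (w y) with hθ
    have h6 : Real.sin θ ≤ 1 / 2 := h1.trans h4
    have h7 : 0 ≤ Real.sin θ := InnerProductGeometry.sin_angle_nonneg _ _
    have h8 : Real.sin θ ^ 2 + Real.cos θ ^ 2 = 1 := Real.sin_sq_add_cos_sq θ
    have h9 : 1 / 2 ≤ |Real.cos θ| := by
      have h10 : (1 / 2 : ℝ) ^ 2 ≤ |Real.cos θ| ^ 2 := by
        rw [sq_abs]; nlinarith
      exact (pow_le_pow_iff_left₀ (by norm_num) (abs_nonneg _) (by norm_num)).mp h10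
    have h10 : Real.cos θ * (‖w a‖ * ‖w y‖) = ⟪w a, w y⟫_ℝ :=
      InnerProductGeometry.cos_angle_mul_norm_mul_norm _ _
    have h11 : ⟪‖w a‖⁻¹ • w a, w y⟫_ℝ = Real.cos θ * ‖w y‖ := by
      rw [real_inner_smul_left, ← h10]
      field_simp
    rw [h11, abs_mul, abs_of_pos hny]
    exact mul_le_mul_of_nonneg_right h9 hny.le

end Pool.Agent.Q67.HV
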