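import Pool.Agent.Q67.HV.Main
import Pool.Agent.Q67.HV.EnG

/-!
Project HV: shift of weak solutions in time; energy equality of Leray-Hopf solutions.
-/

set_option autoImplicit false

open MeasureTheory Set Metric Filter Topology
open scoped InnerProductSpace ENNReal ContDiff NNReal
open H772R2.NS

namespace Pool.Agent.Q67.HV

theorem mp_shift (s T : ℝ) : MeasurePreserving (fun t : ℝ => s + t)
    (volume.restrict (Ioo 0 (T - s))) (volume.restrict (Ioo s T)) := by
  have h := (measurePreserving_add_left (volume : Measure ℝ) s).restrict_preimage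
    (measurableSet_Ioo (a := s) (b := T))
  have e : (fun t : ℝ => s + t) ⁻¹' Ioo s T = Ioo 0 (T - s) := by
    ext t
    simp only [mem_preimage, mem_Ioo]
    constructor
    · rintro ⟨a, b⟩; constructor <;> linarith
    · rintro ⟨a, b⟩; constructor <;> linarith
  rwa [e] at h

theorem shift {Ω : Set E3} {ν T s : ℝ} {u : ℝ → L2V Ω} {G : ℝ → L2M Ω} {f : ℝ → L2V Ω}
    (h : IsWeakSolution Ω ν T u G f) (hs : 0 ≤ s) (_hsT : s < T) :
    IsWeakSolution Ω ν (T - s) (fun t => u (s + t)) (fun t => G (s + t)) (fun t => f (s + t)) := by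
  have hsub : Ioo s T ⊆ Ioo 0 T := Ioo_subset_Ioo_left hs
  have hle : (volume.restrict (Ioo s T) : Measure ℝ) ≤ volume.restrict (Ioo 0 T) :=
    Measure.restrict_mono hsub le_rfl
  have hmp := mp_shift s T
  have hmem : ∀ t ∈ Icc 0 (T - s), s + t ∈ Icc 0 T := fun t ht =>
    ⟨by linarith [ht.1], by linarith [ht.2]⟩
  obtain ⟨M, hM⟩ := h.bdd
  refine ⟨?_, ⟨M, fun t ht => hM _ (hmem t ht)⟩, fun t ht => h.sol _ (hmem t ht), ?_, ?_, ?_, ?_,
    ?_⟩
  · exact (h.meas.mono_measure hle).comp_measurePreserving hmp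
  · intro v
    exact (h.wcont v).comp (by fun_prop) hmem
  · exact hmp.quasiMeasurePreserving.ae (ae_mono hle h.grad)
  · exact (h.gradL2.mono_measure hle).comp_measurePreserving hmp
  · have h5 := h.force.mono_measure hle
    exact (hmp.integrable_comp h5.aestronglyMeasurable).mpr h5
  · intro φ hφ θ h1 h2 h3
    set θ' : ℝ → ℝ := fun t => θ (t - s) with hθ'
    have c1 : ContDiff ℝ ∞ θ' := h1.comp (contDiff_id.sub contDiff_const)
    have c2 : HasCompactSupport θ' := h2.comp_homeomorph (Homeomorph.subRight s)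
    have hsup : tsupport θ' = (fun t => t - s) ⁻¹' tsupport θ :=
      tsupport_comp_eq_preimage θ (Homeomorph.subRight s)
    have c3' : tsupport θ' ⊆ Ioo s T := by
      rw [hsup]
      intro t ht
      have := h3 ht
      exact ⟨by linarith [this.1], by linarith [this.2]⟩
    have c3 : tsupport θ' ⊆ Ioo 0 T := c3'.trans hsub
    have c4 : ∀ t, deriv θ' t = deriv θ (t - s) := fun t => by
      have := deriv_comp_sub_const (f := θ) (x := t) (a := s)
      exact this
    have key := h.eqn φ hφ θ' c1 c2 c3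
    set F : ℝ → ℝ := fun t => (deriv θ' t * (∫ x in Ω, ∑ i, u t x i * φ x i)
        + θ' t * (∫ x in Ω, ∑ i, ∑ j, u t x i * u t x j * jac φ x (i, j))
        - ν * θ' t * (∫ x in Ω, ∑ i, ∑ j, G t x (i, j) * jac φ x (i, j))
        + θ' t * (∫ x in Ω, ∑ i, f t x i * φ x i)) with hF
    have hz : ∀ t, t ∉ Ioo s T → F t = 0 := by
      intro t ht
      have a1 : θ' t = 0 := image_eq_zero_of_notMem_tsupport fun h => ht (c3' h)
      have a2 : deriv θ' t = 0 := by
        have : t ∉ tsupport (deriv θ') := fun h => ht (c3' (tsupport_deriv_subset h))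
        exact image_eq_zero_of_notMem_tsupport this
      simp only [hF, a1, a2]
      ring
    have e1 : ∫ t in Ioo 0 T, F t = ∫ t in Ioo s T, F t :=
      (setIntegral_eq_of_subset_of_forall_sdiff_eq_zero measurableSet_Ioo hsub
        (fun t ht => hz t ht.2))
    have e2 : ∫ t in Ioo s T, F t = ∫ t in Ioo 0 (T - s), F (s + t) := by
      have := hmp.integral_comp (measurableEmbedding_addLeft s) F
      exact this.symm
    have key' : ∫ t in Ioo 0 (T - s), F (s + t) = 0 := by
      rw [← e2, ← e1]; exact key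
    refine Eq.trans (integral_congr_ae (Eventually.of_forall fun t => ?_)) key'
    simp only [hF]
    rw [c4, hθ']
    simp only [add_sub_cancel_left]

/-- The energy defect is constant on `[s, T]`. -/
theorem defect_shift {Ω : Set E3} {ν T s : ℝ} {u : ℝ → L2V Ω} {G : ℝ → L2M Ω}
    (h : IsWeakSolution Ω ν T u G 0) (hs : 0 ≤ s) {t : ℝ} (ht0 : 0 ≤ t) (ht : s + t ≤ T) :
    energyDefect ν (fun t => u (s + t)) (fun t => G (s + t)) 0 t
      = energyDefect ν u G 0 (s + t) - energyDefect ν u G 0 s := by
  have hG : IntegrableOn (fun t => ‖G t‖ ^ 2) (Ioo 0 T) :=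
    (memLp_two_iff_integrable_sq_norm h.gradL2.aestronglyMeasurable).mp h.gradL2
  have hG' : IntervalIntegrable (fun t => ‖G t‖ ^ 2) volume 0 T := by
    rw [intervalIntegrable_iff_integrableOn_Ioo_of_le (by linarith)]
    exact hG
  have i1 : IntervalIntegrable (fun t => ‖G t‖ ^ 2) volume 0 s :=
    hG'.mono_set (by
      rw [uIcc_of_le hs, uIcc_of_le (by linarith)]
      exact Icc_subset_Icc_right (by linarith))
  have i2 : IntervalIntegrable (fun t => ‖G t‖ ^ 2) volume s (s + t) :=
    hG'.mono_set (by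
      rw [uIcc_of_le (by linarith), uIcc_of_le (by linarith)]
      exact Icc_subset_Icc hs ht)
  have e1 : ∫ τ in (0 : ℝ)..t, ‖G (s + τ)‖ ^ 2 = ∫ τ in s..(s + t), ‖G τ‖ ^ 2 := by
    have := intervalIntegral.integral_comp_add_left (a := 0) (b := t)
      (f := fun τ => ‖G τ‖ ^ 2) s
    rw [add_zero] at this
    exact this
  have e2 := intervalIntegral.integral_add_adjacent_intervals i1 i2
  unfold energyDefect
  simp only [Pi.zero_apply, inner_zero_left, intervalIntegral.integral_zero, add_zero]
  rw [e1, ← e2]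
  ring

end Pool.Agent.Q67.HV
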